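import Pool.Agent.H55.LSH.Win
import Pool.Agent.H50.VAL.Tup

/-!
# The values of the shape along the path are polynomials in windows

`ValClStmt`: the conclusion of `L1ShStmt` as a polynomial for every line and window of length
`2 ^ (-u)`, without the hypothesis on the first digits of the time. `val_cl`: from `L1ShStmt`.
-/

set_option autoImplicit false

namespace Pool.LSH

open Finset Real
open Pool.Agent.H49.Ent Pool.Agent.H32.Dense Pool.STK Pool.KAF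
open Pool.KVA (MI)
open Pool.BFL (Pb)
open scoped Polynomial

namespace SDat

variable {k n m K : ℕ} {d : SDat k n m K}

variable (d) in
/-- (H1) without the first digits. -/
def H1' (ι : ℝ) : Prop :=
  MI d.P d.T d.L (fun ω => d.B (d.L ω)) ≤ ι * d.X ∧
  (1 - ι) * d.X * Real.log 2 ≤ CH d.P (d.Ti d.X) d.L

theorem OK.mono {G : Set d.Om} {c c' : ℝ} (h : d.OK G c) (hc : c ≤ c') : d.OK G c' :=
  { h with
    hFc := fun t α => (h.hFc t α).trans (pow_mono hc)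
    hq := fun ω a b i => (h.hq ω a b i).trans (pow_mono hc)
    hx := fun ω a b i => (h.hx ω a b i).trans (pow_mono hc)
    hs := fun ω a b j i a' b' => (h.hs ω a b j i a' b').trans (pow_mono hc)
    cc := fun ω a b j i hij => (h.cc ω a b j i hij).trans (pow_mono (by linarith))
    hh := fun ω a ω' a' b b' e => (h.hh ω a ω' a' b b' e).trans (pow_mono hc) }

end SDat

/-- **The values of the shape along the path**, in windows. -/
def ValClStmt : Prop :=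
  ∀ (k n m K D : ℕ) (c p₀ ε : ℝ), m + k * (K * n * n) ≤ D → 0 < c → 0 < p₀ → 0 < ε →
    ∃ κ₂ : ℝ, 0 < κ₂ ∧ ∀ ι' : ℝ, 0 < ι' → ∃ (κ π₀ ι : ℝ) (X₀ : ℕ), 0 < κ ∧ κ ≤ 1 ∧ 0 < π₀ ∧ 0 < ι ∧
      ∀ (d : SDat k n m K) (G : Set d.Om), d.OK G (ι * d.X) → X₀ ≤ d.X → p₀ ≤ Pr d.P G →
        d.H1' ι → d.H2 ι → d.H3 ι → d.H5 c κ π₀ →
        ∃ (u : ℕ) (g : d.Lam → ℤ → ℝ[X]), (u : ℝ) ≤ ι' * d.X ∧
          (∀ l v, (g l v).degree < (D + 1 : ℕ)) ∧
          Pb d.P (fun ω => ω ∈ G ∧ (2 : ℝ) ^ (-(κ₂ * d.X)) < |d.val (d.L ω) (d.T ω) -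
            (g (d.L ω) ⌊(2 : ℝ) ^ u * d.th (d.T ω)⌋).eval (d.th (d.T ω))|) ≤ ε

theorem deg_comp {p q : ℝ[X]} {D : ℕ} (hp : p.degree < (D + 1 : ℕ)) (hq : q.natDegree ≤ 1) :
    (p.comp q).degree < (D + 1 : ℕ) := by
  have h1 : p.natDegree ≤ D := by
    rw [Polynomial.natDegree_le_iff_coeff_eq_zero]
    intro N hN
    exact (Polynomial.degree_lt_iff_coeff_zero _ _).1 hp N (by omega)
  have h2 : (p.comp q).natDegree ≤ D := by
    refine Polynomial.natDegree_comp_le.trans ?_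
    calc p.natDegree * q.natDegree ≤ D * 1 := Nat.mul_le_mul h1 hq
      _ = D := Nat.mul_one D
  rw [Polynomial.degree_lt_iff_coeff_zero]
  intro N hN
  exact (Polynomial.natDegree_le_iff_coeff_eq_zero.1 h2) N (by omega)

/-- **From level by level to polynomials in windows.** -/
theorem val_cl (hL : L1ShStmt) : ValClStmt := by
  intro k n m K D c p₀ ε hD hc hp₀ hε
  obtain ⟨κ₂, κ, π₀, ι₀, ε₀, k₀, j₀, X₁, h1, h2, h3, h4, h5, h6, H⟩ :=
    hL k n m K D c p₀ ε hD hc hp₀ hε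
  refine ⟨κ₂, h1, fun ι' hι' => ?_⟩
  obtain ⟨i2, hi2⟩ : ∃ i2 : ℝ, i2 = min ι' (min (ι₀ / 4) 1) := ⟨_, rfl⟩
  have i2p : 0 < i2 := by
    rw [hi2]
    exact lt_min hι' (lt_min (by positivity) one_pos)
  have i2a : i2 ≤ ι' := by rw [hi2]; exact min_le_left _ _
  have i2b : i2 ≤ ι₀ / 4 := by rw [hi2]; exact (min_le_right _ _).trans (min_le_left _ _)
  have i2c : i2 ≤ 1 := by rw [hi2]; exact (min_le_right _ _).trans (min_le_right _ _)
  obtain ⟨ι, hι⟩ : ∃ ι : ℝ, ι = min (ι₀ / 4) (i2 * ε₀ / (2 * (j₀ + 1))) := ⟨_, rfl⟩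
  have ιp : 0 < ι := by
    rw [hι]
    exact lt_min (by positivity) (by positivity)
  have ιa : ι ≤ ι₀ / 4 := by rw [hι]; exact min_le_left _ _
  have ιb : ι ≤ i2 * ε₀ / (2 * (j₀ + 1)) := by rw [hι]; exact min_le_right _ _
  obtain ⟨X₂, hX₂⟩ := exists_nat_ge (max (2 * ((j₀ : ℝ) + 1) / i2) (4 * (2 * n + 2 * m : ℕ) / ι₀))
  refine ⟨κ, π₀, ι, max X₁ (X₂ + 1), h2, h3, h4, ιp, ?_⟩
  intro d G hO hX hG hH1 hH2 hH3 hH5
  have hl0 : 0 < Real.log 2 := Real.log_pos one_lt_two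
  have hl1 : Real.log 2 ≤ 1 := by
    have := Real.log_two_lt_d9
    linarith
  have hl2 : 1 / 2 ≤ Real.log 2 := by
    have := Real.log_two_gt_d9
    linarith
  have hX1 : X₁ ≤ d.X := (le_max_left _ _).trans hX
  have hX2 : X₂ + 1 ≤ d.X := (le_max_right _ _).trans hX
  have hXr : (X₂ : ℝ) + 1 ≤ d.X := by exact_mod_cast hX2
  have hX0 : (0 : ℝ) < d.X := by
    have : (0 : ℝ) ≤ X₂ := Nat.cast_nonneg _
    linarith
  have a1 : 2 * ((j₀ : ℝ) + 1) / i2 ≤ d.X := (le_max_left _ _).trans (hX₂.trans (by linarith))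
  have a2 : 4 * (2 * n + 2 * m : ℕ) / ι₀ ≤ (d.X : ℝ) :=
    (le_max_right _ _).trans (hX₂.trans (by linarith))
  rw [div_le_iff₀ i2p] at a1
  rw [div_le_iff₀ h5] at a2
  have hj1 : (0 : ℝ) < j₀ + 1 := by positivity
  obtain ⟨N, hN⟩ : ∃ N : ℕ, N = ⌊i2 * d.X / (j₀ + 1)⌋₊ := ⟨_, rfl⟩
  have n0 : 0 ≤ i2 * d.X / ((j₀ : ℝ) + 1) := by positivity
  have n1 : (N : ℝ) ≤ i2 * d.X / (j₀ + 1) := by
    rw [hN]
    exact Nat.floor_le n0
  have n2 : i2 * d.X / ((j₀ : ℝ) + 1) < N + 1 := by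
    rw [hN]
    exact Nat.lt_floor_add_one _
  have n1' : (N : ℝ) * (j₀ + 1) ≤ i2 * d.X := by
    rw [le_div_iff₀ hj1] at n1
    exact n1
  have n2' : i2 * d.X < (N + 1) * ((j₀ : ℝ) + 1) := by
    rw [div_lt_iff₀ hj1] at n2
    exact n2
  have nh : (1 : ℝ) < (N : ℝ) + 1 := by
    have : 2 * ((j₀ : ℝ) + 1) < (N + 1) * ((j₀ : ℝ) + 1) := by linarith
    have := lt_of_mul_lt_mul_right this hj1.le
    linarith
  have npos : 0 < N := by
    have : (0 : ℝ) < N := by linarith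
    exact_mod_cast this
  have hi2X : i2 * d.X ≤ d.X := mul_le_of_le_one_left hX0.le i2c
  have nX : N * j₀ ≤ d.X := by
    have : (N : ℝ) * j₀ ≤ d.X := by
      have : (N : ℝ) * j₀ ≤ N * (j₀ + 1) :=
        mul_le_mul_of_nonneg_left (by linarith) (Nat.cast_nonneg _)
      linarith
    exact_mod_cast this
  -- the window
  obtain ⟨i, hi, hw⟩ := SDat.ex_win (N := N) (j₀ := j₀) (ε₀ := ε₀) hO hH1.2 npos nX (by
    have b1 : ι * d.X * Real.log 2 ≤ ι * d.X := mul_le_of_le_one_right (by positivity) hl1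
    have b2 : ι * d.X ≤ i2 * ε₀ / (2 * (j₀ + 1)) * d.X := mul_le_mul_of_nonneg_right ιb hX0.le
    have b3 : i2 * ε₀ / (2 * ((j₀ : ℝ) + 1)) * d.X ≤ N * ε₀ := by
      rw [div_mul_eq_mul_div, div_le_iff₀ (by positivity)]
      have b4 : i2 * d.X ≤ N * (2 * ((j₀ : ℝ) + 1)) := by
        have b5 : ((N : ℝ) + 1) * (j₀ + 1) ≤ N * (2 * (j₀ + 1)) := by
          have : (1 : ℝ) ≤ N := by exact_mod_cast npos
          nlinarith
        linarith
      have := mul_le_mul_of_nonneg_right b4 h6.le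
      nlinarith
    linarith)
  obtain ⟨u, hu⟩ : ∃ u : ℕ, u = i * j₀ := ⟨_, rfl⟩
  rw [← hu] at hw
  have hui : (u : ℝ) ≤ i2 * d.X := by
    have b1 : i * j₀ ≤ N * (j₀ + 1) := Nat.mul_le_mul hi.le (Nat.le_succ _)
    have b2 : (u : ℝ) ≤ ((N * (j₀ + 1) : ℕ) : ℝ) := by
      rw [hu]
      exact_mod_cast b1
    push_cast at b2
    linarith
  have huX : u ≤ d.X := by
    have : (u : ℝ) ≤ d.X := hui.trans hi2X
    exact_mod_cast this
  have hι0X : ι * d.X ≤ ι₀ / 4 * d.X := mul_le_mul_of_nonneg_right ιa hX0.le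
  have hi2X' : i2 * d.X ≤ ι₀ / 4 * d.X := mul_le_mul_of_nonneg_right i2b hX0.le
  have hι0p : 0 < ι₀ * d.X := by positivity
  have hOw : (d.win u).OK G (ι₀ * (d.win u).X) := by
    refine (SDat.win_ok u hO).mono ?_
    show ι * (d.X : ℝ) + (2 * n + 2 * m : ℕ) ≤ ι₀ * d.X
    linarith
  have hfin := H (d.win u) G hOw hX1 hG ⟨?_, ?_, hw⟩ ?_ ?_ hH5
  · obtain ⟨g, hg1, hg2⟩ := poly_sd (d.win u) G hO.law (lt_of_lt_of_le hp₀ hG) D k₀
      ((2 : ℝ) ^ (-(κ₂ * d.X))) ε hfin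
    refine ⟨u, fun l v => (g (l, v)).comp (Polynomial.C ((2 : ℝ) ^ u) * Polynomial.X -
      Polynomial.C (v : ℝ)), hui.trans (mul_le_mul_of_nonneg_right i2a hX0.le), fun l v => ?_, ?_⟩
    · refine deg_comp (hg1 (l, v)) ?_
      refine (Polynomial.natDegree_sub_le _ _).trans (max_le ?_ ?_)
      · exact (Polynomial.natDegree_C_mul_le _ _).trans Polynomial.natDegree_X_le
      · rw [Polynomial.natDegree_C]
        exact Nat.zero_le _
    · refine le_trans (le_of_eq ?_) hg2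
      congr 1
      funext ω
      have e1 : (d.win u).val ((d.win u).L ω) ((d.win u).T ω) = d.val (d.L ω) (d.T ω) :=
        d.win_val u ω
      have e2 : ((g (d.L ω, ⌊(2 : ℝ) ^ u * d.th (d.T ω)⌋)).comp (Polynomial.C ((2 : ℝ) ^ u) *
          Polynomial.X - Polynomial.C ((⌊(2 : ℝ) ^ u * d.th (d.T ω)⌋ : ℤ) : ℝ))).eval
            (d.th (d.T ω)) = (g ((d.win u).L ω)).eval ((d.win u).th ((d.win u).T ω)) := by
        rw [Polynomial.eval_comp]
        simp only [Polynomial.eval_sub, Polynomial.eval_mul, Polynomial.eval_C,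
          Polynomial.eval_X]
        rfl
      rw [e2, ← e1]
      rfl
  · refine (SDat.win_MI u hO).trans (hH1.1.trans ?_)
    show ι * (d.X : ℝ) ≤ ι₀ * d.X
    linarith
  · refine le_trans ?_ (SDat.win_dig u hO huX hH1.2)
    show (1 - ι₀) * (d.X : ℝ) * Real.log 2 ≤ _
    have : 0 ≤ (ι₀ * d.X - ι * d.X - u) * Real.log 2 := mul_nonneg (by linarith) hl0.le
    nlinarith
  · have := SDat.win_H2 u hO hH2
    refine le_trans this ?_
    show ι * (d.X : ℝ) ≤ ι₀ * d.X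
    linarith
  · refine SDat.win_H3 u hO hH1.1 ?_ hH3
    nlinarith

end Pool.LSH
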