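import Pool.Agent.H55.LSH.Tim
import Pool.Agent.H48.GEN.L1Lev

/-!
# The sheets of a cell: from a law to an event

`SDat.wp`: the data with another law. The fields of `OK`, (H2), (H3), (H5) on an event `E` of
probability at least `p₁`.
-/

set_option autoImplicit false

namespace Pool.LSH

open Finset Real
open Pool.Agent.H49.Ent Pool.Agent.H32.Dense Pool.STK Pool.KAF
open Pool.KVA (MI)
open Pool.LEV (mi_ev det_on hmax tmax)

/-- An event of the law on an event. -/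
theorem cond_ev {Ω : Type} [Fintype Ω] (p : Ω → ℝ) (E W : Set Ω) (hE : 0 < Pr p E) :
    cond (cond p (fun ω => ω ∈ E) True) (fun ω => ω ∈ W) True =
      cond p (fun ω => ω ∈ E ∩ W) True ∧
    Pr p (E ∩ W) = Pr p E * Pr (cond p (fun ω => ω ∈ E) True) W := by
  classical
  have h2 : Pr p (E ∩ W) = Pr p E * Pr (cond p (fun ω => ω ∈ E) True) W := by
    rw [Pr_eq, Pr_eq _ W, Finset.mul_sum]
    refine Finset.sum_congr rfl fun ω _ => ?_
    rw [Pool.SLO.condG_eq]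
    by_cases hW : ω ∈ W
    · by_cases hE' : ω ∈ E
      · rw [if_pos (show ω ∈ E ∩ W from ⟨hE', hW⟩), if_pos hW, if_pos hE',
          mul_div_cancel₀ _ hE.ne']
      · rw [if_neg (fun a : ω ∈ E ∩ W => hE' a.1), if_pos hW, if_neg hE', mul_zero]
    · rw [if_neg (fun a : ω ∈ E ∩ W => hW a.2), if_neg hW, mul_zero]
  refine ⟨?_, h2⟩
  funext ω
  rw [Pool.SLO.condG_eq, Pool.SLO.condG_eq, Pool.SLO.condG_eq]
  by_cases hW : ω ∈ W
  · by_cases hE' : ω ∈ E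
    · rw [if_pos hW, if_pos hE', if_pos (show ω ∈ E ∩ W from ⟨hE', hW⟩), h2, div_div]
    · rw [if_pos hW, if_neg hE', if_neg (fun a : ω ∈ E ∩ W => hE' a.1), zero_div]
  · rw [if_neg hW, if_neg (fun a : ω ∈ E ∩ W => hW a.2)]

namespace SDat

variable {k n m K : ℕ} (d : SDat k n m K)

/-- The data with another law. -/
noncomputable def wp (p : d.Om → ℝ) : SDat k n m K := { d with P := p }

variable {d}

/-- The basic assumptions under another law. -/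
theorem wp_ok {G : Set d.Om} {c : ℝ} (h : d.OK G c) {p : d.Om → ℝ} (hp : IsLaw p)
    (hpq : ∀ ω, 0 < p ω → 0 < d.P ω) : (d.wp p).OK G c where
  law := hp
  hth := h.hth
  hF := h.hF
  hFc := h.hFc
  hN := fun ω ω' a a' e => h.hN ω ω' (hpq ω a) (hpq ω' a') e
  hV := fun ω ω' a a' e => h.hV ω ω' (hpq ω a) (hpq ω' a') e
  hZB := fun j ω ω' a a' e => h.hZB j ω ω' (hpq ω a) (hpq ω' a') e
  hTB := fun ω ω' a a' e => h.hTB ω ω' (hpq ω a) (hpq ω' a') e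
  tri := fun ω a b => h.tri ω a (hpq ω b)
  dia := fun ω a b => h.dia ω a (hpq ω b)
  hy := fun ω a => h.hy ω (hpq ω a)
  hq := fun ω a b => h.hq ω a (hpq ω b)
  hx := fun ω a b => h.hx ω a (hpq ω b)
  hs := fun ω a b => h.hs ω a (hpq ω b)
  cc := fun ω a b => h.cc ω a (hpq ω b)
  hh := fun ω a ω' a' b b' e => h.hh ω a ω' a' (hpq ω b) (hpq ω' b') e

/-- (H2) on an event. -/
theorem ev_H2 (hp : IsLaw d.P) {x ι p₁ : ℝ} (h : MI d.P d.N (fun ω => d.V (d.L ω)) d.T ≤ x)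
    (E : Set d.Om) (hp₁ : 0 < p₁) (hE : p₁ ≤ Pr d.P E) (hx : (x + Real.log 2) / p₁ ≤ ι * d.X) :
    (d.wp (cond d.P (fun ω => ω ∈ E) True)).H2 ι := by
  have hE0 : 0 < Pr d.P E := hp₁.trans_le hE
  have h1 := mi_ev hp d.N (fun ω => d.V (d.L ω)) d.T E hE0
  have h0 : 0 ≤ MI d.P d.N (fun ω => d.V (d.L ω)) d.T := Pool.M5.MI_nonneg hp.nonneg _ _ _
  have hl : 0 ≤ Real.log 2 := Real.log_nonneg one_le_two
  refine h1.trans (le_trans ?_ hx)
  calc (MI d.P d.N (fun ω => d.V (d.L ω)) d.T + Real.log 2) / Pr d.P E ≤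
      (x + Real.log 2) / Pr d.P E := div_le_div_of_nonneg_right (by linarith) hE0.le
    _ ≤ _ := div_le_div_of_nonneg_left (by linarith) hp₁ hE

/-- (H3) on an event. -/
theorem ev_H3 (hp : IsLaw d.P) (hy : ∀ l j, |(d.y l j : ℝ) / 2 ^ d.X| ≤ 1) {x ι p₁ : ℝ}
    (hx0 : 0 ≤ x)
    (h : ∀ j, d.X * Real.log 2 - x ≤ CH d.P (fun ω => d.y (d.L ω) j) (fun ω => d.Z j (d.L ω)))
    (E : Set d.Om) (hp₁ : 0 < p₁) (hE : p₁ ≤ Pr d.P E)
    (hx : (x + 3 * Real.log 2) / p₁ ≤ ι * d.X * Real.log 2) :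
    (d.wp (cond d.P (fun ω => ω ∈ E) True)).H3 ι := by
  intro j
  have hE0 : 0 < Pr d.P E := hp₁.trans_le hE
  have hl : 0 ≤ Real.log 2 := Real.log_nonneg one_le_two
  have k2 := Pool.DY1.ev_ge hp E (fun ω => d.y (d.L ω) j) (fun ω => d.Z j (d.L ω))
    ((d.X + 2) * Real.log 2) hE0 (fun q hq _ => (Pool.KS3.CH_le_H hq _ _).trans
      (hmax (y := fun l => d.y l j) hq (fun l => hy l j)))
  refine le_trans ?_ k2
  have k3 : ((d.X + 2) * Real.log 2 - CH d.P (fun ω => d.y (d.L ω) j)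
      (fun ω => d.Z j (d.L ω)) + Real.log 2) / Pr d.P E ≤ (x + 3 * Real.log 2) / p₁ := by
    refine le_trans (div_le_div_of_nonneg_right (c := Pr d.P E) ?_ hE0.le)
      (div_le_div_of_nonneg_left (by linarith) hp₁ hE)
    have := h j
    linarith
  show (1 - ι) * (d.X : ℝ) * Real.log 2 ≤ _
  linarith

/-- (H5) on an event. -/
theorem ev_H5 {c κ π₀ p₁ : ℝ} (hπ₀ : 0 ≤ π₀) (E : Set d.Om) (hp₁ : 0 < p₁) (hE : p₁ ≤ Pr d.P E)
    (h : d.H5 c κ (p₁ * π₀)) : (d.wp (cond d.P (fun ω => ω ∈ E) True)).H5 c κ π₀ := by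
  intro j hj W hW
  have hE0 : 0 < Pr d.P E := hp₁.trans_le hE
  obtain ⟨e1, e2⟩ := cond_ev d.P E W hE0
  have hW' : π₀ ≤ Pr (cond d.P (fun ω => ω ∈ E) True) W := hW
  have h1 : p₁ * π₀ ≤ Pr d.P (E ∩ W) := by
    rw [e2]
    exact mul_le_mul hE hW' hπ₀ hE0.le
  have h2 := h j hj (E ∩ W) h1
  rw [← e1] at h2
  exact h2

end SDat

end Pool.LSH
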