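import Pool.Agent.H55.LSH.Dd
import Pool.Agent.H46.LSH.DaS

/-!
# The entropic hypotheses of the sheets of a cell on an event: `DAStmt` for `1 ≤ bbn`
-/

set_option autoImplicit false

namespace Pool.LSH

open Finset MvPolynomial
open Pool.Agent.H49.Ent Pool.Agent.H32.Dense Pool.STK Pool.STAT Pool.MIC Pool.MicA
open Pool.BFL (Pl Pb)

/-- `DAStmt` for `1 ≤ bbn`. -/
theorem da_thm (n K K₀ B N bbn : ℕ) (lam gam : ℕ → ℝ) (C₁ h c p₁ F₀ ι κ₀ π₀ : ℝ) (hn : 1 ≤ n)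
    (hB : 1 ≤ B) (hbb : 1 ≤ bbn) (hlam : ∀ l, 0 < lam l) (hgn : 0 < gam n)
    (hC₁ : 1 ≤ C₁) (hh : 0 < h) (hh1 : h ≤ 1) (hK : K * (K + 1) ^ n ≤ K₀) (hp₁ : 0 < p₁)
    (hF₀ : 0 ≤ F₀) (hι : 0 < ι) (hκ₀ : 0 < κ₀) (hπ₀ : 0 < π₀) :
    ∃ U₁ : ℕ, ∀ U : ℕ, U₁ ≤ U → ∃ (e : ℝ) (W₁ S₁ : ℕ), 0 < e ∧
    ∀ (W be : ℕ) (co al : Fin (n - 1) → ℕ) (an : ℕ), W₁ ≤ W →
      PlN n lam gam (2 * C₁ + 1) c W be co al an → ∀ S' : ℕ, S₁ ≤ S' →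
    ∃ R : ℕ, ∀ M : ℕ, R ≤ M → ∃ (κ ϖ : ℝ) (z₀ : ℕ), 0 < κ ∧ 0 < ϖ ∧
    ∀ (J a₀ w₀ z i j : ℕ) (D : NDat2) (q : D.Ω → ℝ) (ω₀ : D.Ω) (E : D.Ω → Prop), z₀ ≤ z →
      R ≤ i → i + R ≤ M → R ≤ j → j + R ≤ M →
      D.Ok2 n K J a₀ w₀ z M lam gam κ C₁ q → LdF D n z M lam gam κ q →
      D.NF n z M B gam h C₁ ϖ q → D.TmU J w₀ z κ q → p₁ ≤ Pb q E →
      Pb q (fun ω => ¬ Gdk D n K₀ z i j (i - S' * an) (j + S' * be) (U * z) (bbn * z) ω) ≤ e →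
      CH (cond q E True)
        (kpA D n K₀ z i j (i - S' * an) (j + S' * be) (U * z) (bbn * z))
        (fun ω => (D.c i j ω, thr D J (w₀ + j * z) ω)) ≤ F₀ * z →
      ((shA D (plc i j be co al) q J (w₀ + j * z) ω₀ n (U * z) N K₀ z (bbn * z)
        (i - S' * an, j + S' * be) (i + an, j - be)).wp (cond q E True)).H1' ι ∧
      ((shA D (plc i j be co al) q J (w₀ + j * z) ω₀ n (U * z) N K₀ z (bbn * z)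
        (i - S' * an, j + S' * be) (i + an, j - be)).wp (cond q E True)).H2 ι ∧
      ((shA D (plc i j be co al) q J (w₀ + j * z) ω₀ n (U * z) N K₀ z (bbn * z)
        (i - S' * an, j + S' * be) (i + an, j - be)).wp (cond q E True)).H3 ι ∧
      ((shA D (plc i j be co al) q J (w₀ + j * z) ω₀ n (U * z) N K₀ z (bbn * z)
        (i - S' * an, j + S' * be) (i + an, j - be)).wp (cond q E True)).H5 (h / 2) κ₀ π₀ := by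
  obtain ⟨cN, hcN⟩ := exists_nat_ge (c + 2 * C₁)
  obtain ⟨U₁, H⟩ := d_all n K K₀ B bbn cN N lam gam C₁ h c p₁ F₀ ι κ₀ π₀ hn hB hlam hgn hC₁ hh hh1
    hK hcN hbb hp₁ hF₀ hι hκ₀ hπ₀
  refine ⟨U₁, fun U hU => ?_⟩
  obtain ⟨e, W₁, S₁, he, H⟩ := H U hU
  refine ⟨e, W₁, S₁, he, fun W be co al an hW hP S' hS' => ?_⟩
  obtain ⟨R, H⟩ := H W be co al an hW hP S' hS'
  refine ⟨R, fun M hM => ?_⟩
  obtain ⟨κ, ϖ, z₀, hκ, hϖ, H⟩ := H M hM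
  refine ⟨κ, ϖ, z₀, hκ, hϖ, fun J a₀ w₀ z i j D q ω₀ E b1 b2 b3 b4 b5 b6 b7 b8 b9 b10 b11 b12 => ?_⟩
  exact H J a₀ w₀ z i j D q ω₀ E b1 b2 b3 b4 b5 b6 b7 b8 b9 b10 b12 b11

end Pool.LSH
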