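import Pool.Agent.H46.LSH.OutS
import Pool.Agent.H25.LSH.H3
import Pool.Agent.H50.LSH.H2

/-!
# The sheets of a cell: the levels of the collinear places

`dir_of`: the places `p r + S (al r, - be)` for (H3). `plg_of`: the place `P_n + S (an, - be)` for
(H2). `ful_lla`: the base is full given the own label.
-/

set_option autoImplicit false

namespace Pool.LSH

open Finset
open Pool.Agent.H49.Ent Pool.Agent.H32.Dense Pool.STK Pool.STAT Pool.MIC Pool.MicA

section

variable {D : NDat2} {n K J a₀ w₀ z M : ℕ} {lam gam : ℕ → ℝ} {κ C₁ c : ℝ} {q : D.Ω → ℝ}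
  {U W be cN : ℕ} {co al : Fin (n - 1) → ℕ} {an i j : ℕ}

/-- **The collinear places of the coordinates.** -/
theorem dir_of (hO : D.Ok2 n K J a₀ w₀ z M lam gam κ C₁ q) (hC₁ : 0 ≤ C₁)
    (hP : PlN n lam gam (2 * C₁ + 1) c W be co al an) (hW1 : 1 ≤ W)
    (hW : (U : ℝ) + 2 * C₁ ≤ W) {S : ℕ} (hS : (U : ℝ) + 2 * C₁ ≤ S)
    (hi : i + (S + 1) * an < M) (hj : j < M)
    (hb : (S + 1) * be ≤ j) (cN : ℕ) (r : Fin (n - 1)) :
    Dir D n z (U * z) cN M (plc i j be co al) r := by
  classical
  have hal : al r ≤ an := (Nat.le_add_right _ _).trans (hP.gapn r)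
  have h1 : (S + 1) * al r ≤ (S + 1) * an := Nat.mul_le_mul_left _ hal
  have hbj : be ≤ j := le_trans (Nat.le_mul_of_pos_left be (Nat.succ_pos S)) hb
  have hbe : ((j - be : ℕ) : ℝ) = j - be := Nat.cast_sub hbj
  have e1 : (S + 1) * al r = S * al r + al r := by ring
  have e2 : (S + 1) * be = S * be + be := by ring
  have hSb : ((j - be - S * be : ℕ) : ℝ) = j - be - S * be := by
    rw [Nat.cast_sub (by omega), hbe]
    push_cast
    ring
  have hnat : ∀ {a b : ℕ}, (a : ℝ) + (U : ℝ) * z ≤ b → a + U * z ≤ b := fun h => by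
    exact_mod_cast h
  have hU0 : (0 : ℝ) ≤ U := Nat.cast_nonneg U
  refine ⟨al r, be, S, univ.filter fun l : Fin (n - 1) => ∃ s, co s = (l : ℕ) + 1 ∧ al r < al s,
    ?_, ?_, ?_, ?_, ?_, ?_, ?_⟩
  · show al r ≤ i + al r
    omega
  · show ((i, j) : ℕ × ℕ) = (i + al r - al r, j - be + be)
    rw [Nat.add_sub_cancel, Nat.sub_add_cancel hbj]
  · show i + al r + S * al r < M
    omega
  · show S * be ≤ j - be
    omega
  · intro l hl hmem
    obtain ⟨-, s, hs, hs2⟩ := mem_filter.1 hmem
    have h2 : (plc i j be co al).rk (co s) = s := rk_co (π := plc i j be co al) hP.inj s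
    rw [hs] at h2
    rw [h2] at hl
    exact absurd (hP.mono (show s ≤ r from hl)) (not_le.2 hs2)
  · intro l hl
    obtain ⟨s, hs, -⟩ := of_rk (rk_all (π := plc i j be co al) hP.inj hP.co_ge hP.co_lt
      (l := (l : ℕ) + 1) (by omega) (by have := l.2; omega))
    have hs' : co s = (l : ℕ) + 1 := hs
    have h2 : al s ≤ al r := by
      by_contra hcon
      exact hl (mem_filter.2 ⟨mem_univ _, s, hs', not_le.1 hcon⟩)
    have h3 : (1 : ℝ) ≤ lam (co s) * al r - gam (co s) * be := by
      rcases h2.lt_or_eq with h | h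
      · have := hP.nar r s h
        have : (1 : ℝ) ≤ W := by exact_mod_cast hW1
        linarith
      · have := (hP.own r s h.symm).1
        linarith
    rw [hs'] at h3
    have h4 := lvl_le hO (x := U) (i := i + al r) (j := j - be) (i' := i + al r + S * al r)
      (j' := j - be - S * be) (l := (l : ℕ) + 1) (by omega) (by omega) (by omega) (by omega)
      (by omega) (by have := l.2; omega) (by
        rw [hSb, hbe]
        push_cast
        have h5 : (S : ℝ) * 1 ≤ S * (lam ((l : ℕ) + 1) * al r - gam ((l : ℕ) + 1) * be) :=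
          mul_le_mul_of_nonneg_left h3 (Nat.cast_nonneg S)
        nlinarith)
    have h5 := hnat h4
    show D.g (i + al r) (j - be) (l + 1) + U * z ≤
      D.g (i + al r + S * al r) (j - be - S * be) (l + 1) + cN * z
    exact h5.trans (Nat.le_add_right _ _)
  · intro l hl
    obtain ⟨-, s, hs, hs2⟩ := mem_filter.1 hl
    have h2 := hP.wid r s hs2
    rw [hs] at h2
    have h3 := lvl_le hO (x := U) (i := i + al r) (j := j - be) (i' := i) (j' := j)
      (l := (l : ℕ) + 1) (by omega) (by omega) (by omega) (by omega) (by omega)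
      (by have := l.2; omega) (by
        rw [hbe]
        push_cast
        nlinarith)
    have h4 := hnat h3
    show D.g (i + al r) (j - be) (l + 1) + U * z ≤ D.g i j (l + 1) + cN * z
    exact h4.trans (Nat.le_add_right _ _)

/-- **The collinear places of the target.** -/
theorem plg_of (hO : D.Ok2 n K J a₀ w₀ z M lam gam κ C₁ q) (hC₁ : 0 ≤ C₁)
    (hP : PlN n lam gam (2 * C₁ + 1) c W be co al an) (hl : ∀ l, 0 < lam l)
    (hWk : WOk n lam C₁ cN U W) {S S' : ℕ} (hS : (U : ℝ) + 2 * C₁ ≤ S)
    (hz : 1 ≤ z) (hi : i + (S + 1) * an + U < M) (hj : j + S' * be < M)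
    (hb : (S + 1) * be ≤ j) (hi2 : S' * an ≤ i) (cc : ℕ) :
    Plg D n z (U * z) cc M (plc i j be co al) (i + an, j - be) an be S S' := by
  have hal : ∀ r, al r + W ≤ an := fun r => hP.gapn r
  have hbj : be ≤ j := le_trans (Nat.le_mul_of_pos_left be (Nat.succ_pos S)) hb
  have hbe : ((j - be : ℕ) : ℝ) = j - be := Nat.cast_sub hbj
  have e1 : (S + 1) * an = S * an + an := by ring
  have e2 : (S + 1) * be = S * be + be := by ring
  have hSb : ((j - be - S * be : ℕ) : ℝ) = j - be - S * be := by
    rw [Nat.cast_sub (by omega), hbe]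
    push_cast
    ring
  have hnat : ∀ {a b : ℕ}, (a : ℝ) + (U : ℝ) * z ≤ b → a + U * z ≤ b := fun h => by
    exact_mod_cast h
  have hU0 : (0 : ℝ) ≤ U := Nat.cast_nonneg U
  have hW1 : 2 * C₁ + 1 ≤ W := hWk.C
  have hUz : U * z / z = U := Nat.mul_div_cancel U (by omega)
  have hrk : ∀ l, 1 ≤ l → l < n → (plc i j be co al).rk l < n - 1 := fun l l1 l2 =>
    rk_all (π := plc i j be co al) hP.inj hP.co_ge hP.co_lt l1 l2
  refine
  { a_eq := rfl
    be_le := hbj
    o1 := hi2
    o2 := hj
    r1 := ?_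
    r2 := ?_
    rU := ?_
    nar := fun l l1 l2 _ => ?_
    wid := fun l l1 l2 h => absurd (hrk l l1 l2) h
    hor := fun r => ⟨rfl, ?_⟩
    lev := fun r l l1 l2 => ?_ }
  · show i + an + S * an < M
    omega
  · show S * be ≤ j - be
    omega
  · rw [hUz]
    show i + an + U ≤ M
    omega
  · obtain ⟨s, hs, -⟩ := of_rk (hrk l l1 l2)
    have h2 := hP.narn s
    have hs' : co s = l := hs
    rw [hs'] at h2
    have h4 := lvl_le hO (x := U) (i := i + an) (j := j - be) (i' := i + an + S * an)
      (j' := j - be - S * be) (l := l) (by omega) (by omega) (by omega) (by omega)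
      l1 l2.le (by
        rw [hSb, hbe]
        push_cast
        have h5 : (S : ℝ) * 1 ≤ S * (lam l * an - gam l * be) :=
          mul_le_mul_of_nonneg_left (by linarith) (Nat.cast_nonneg S)
        nlinarith)
    have h5 := hnat h4
    show D.g (i + an) (j - be) l + U * z ≤
      D.g (i + an + S * an) (j - be - S * be) l + cc * z
    exact h5.trans (Nat.le_add_right _ _)
  · show i + al r ≤ i + an
    have := hal r
    omega
  · have h0 : ((al r + W : ℕ) : ℝ) ≤ an := by exact_mod_cast hal r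
    have h4 := hWk.hor l l1 l2.le
    have h5 := mul_le_mul_of_nonneg_left h0 (hl l).le
    have h6 := lvl_le hO (x := U) (i := i + al r) (j := j - be) (i' := i + an) (j' := j - be)
      (l := l) (by have := hal r; omega) (by omega) (by omega) (by omega) l1 l2.le (by
        push_cast at h5 ⊢
        nlinarith)
    have h7 := hnat h6
    show D.g (i + al r) (j - be) l ≤ D.g (i + an) (j - be) l + cc * z
    omega

/-- The base is full given the own label. -/
theorem ful_lla {κ' : ℝ} (hL : D.LLA n z M lam gam κ' q)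
    (hP : PlN n lam gam (2 * C₁ + 1) c W be co al an) (hW : 1 ≤ W) {S' V : ℕ}
    (hS : 1 ≤ S') (hi : i ≤ M) (hj : j + S' * be ≤ M) (hi2 : S' * an ≤ i) (hV : V ≤ M) :
    ((n - 1 : ℕ) : ℝ) * (((V * z : ℕ) : ℝ) * Real.log 2) - κ' * z ≤
      CH q (D.vd n i j (V * z))
        (fun ω => (D.s (i - S' * an) (j + S' * be) ω, (D.c i j ω, D.T ω))) := by
  have h := hL.v i j (S' * an) (S' * be) V hi hj hi2 hV (fun l l1 l2 => by
    obtain ⟨s, hs, -⟩ := of_rk (rk_all (π := plc i j be co al) hP.inj hP.co_ge hP.co_lt l1 l2)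
    have h2 := hP.narn s
    have hs' : co s = l := hs
    rw [hs'] at h2
    have hW' : (1 : ℝ) ≤ W := by exact_mod_cast hW
    have hS' : (1 : ℝ) ≤ S' := by exact_mod_cast hS
    push_cast
    nlinarith)
  refine le_trans (le_of_eq ?_) h
  push_cast
  ring

end

end Pool.LSH
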