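import Pool.Agent.H55.LSH.Tra
import Pool.Agent.H55.LSH.Plq
import Pool.Agent.H25.LSH.H5

/-!
# The sheets of a cell: (H1), (H2), (H3), (H5) on an event

`d_all`: part (d) of the local theorem for all weights.
-/

set_option autoImplicit false

namespace Pool.LSH

open Finset MvPolynomial
open Pool.Agent.H49.Ent Pool.Agent.H32.Dense Pool.STK Pool.STAT Pool.MIC Pool.MicA
open Pool.BFL (Pl Pb)
open Pool.KAF (Pr)
open Pool.KVA (MI)

theorem TmU_mono' {D : NDat2} {J w₀ z : ℕ} {κ κ' : ℝ} {q : D.Ω → ℝ} (h : D.TmU J w₀ z κ q)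
    (hκ : κ ≤ κ') : D.TmU J w₀ z κ' q := by
  unfold NDat2.TmU at h ⊢
  have : κ * (z : ℝ) ≤ κ' * z := mul_le_mul_of_nonneg_right hκ (Nat.cast_nonneg z)
  linarith

/-- **(H1), (H2), (H3), (H5) of the sheets of a cell on an event.** -/
theorem d_all (n K K₀ B bbn cN N : ℕ) (lam gam : ℕ → ℝ) (C₁ h c p₁ F₀ ι κ₀ π₀ : ℝ) (hn : 1 ≤ n)
    (hB : 1 ≤ B) (hlam : ∀ l, 0 < lam l) (hgn : 0 < gam n)
    (hC₁ : 1 ≤ C₁) (hh : 0 < h) (hh1 : h ≤ 1) (hK : K * (K + 1) ^ n ≤ K₀)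
    (hc : c + 2 * C₁ ≤ cN) (hbb : 1 ≤ bbn) (hp₁ : 0 < p₁) (hF₀ : 0 ≤ F₀)
    (hι : 0 < ι) (hκ₀ : 0 < κ₀) (hπ₀ : 0 < π₀) :
    ∃ U₁ : ℕ, ∀ U : ℕ, U₁ ≤ U → ∃ (e : ℝ) (W₁ S₁ : ℕ), 0 < e ∧
    ∀ (W be : ℕ) (co al : Fin (n - 1) → ℕ) (an : ℕ), W₁ ≤ W →
      PlN n lam gam (2 * C₁ + 1) c W be co al an → ∀ S' : ℕ, S₁ ≤ S' →
    ∃ R : ℕ, ∀ M : ℕ, R ≤ M → ∃ (κ ϖ : ℝ) (z₀ : ℕ), 0 < κ ∧ 0 < ϖ ∧
    ∀ (J a₀ w₀ z i j : ℕ) (D : NDat2) (q : D.Ω → ℝ) (ω₀ : D.Ω) (E : D.Ω → Prop), z₀ ≤ z →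
      R ≤ i → i + R ≤ M → R ≤ j → j + R ≤ M →
      D.Ok2 n K J a₀ w₀ z M lam gam κ C₁ q → LdF D n z M lam gam κ q →
      D.NF n z M B gam h C₁ ϖ q → D.TmU J w₀ z κ q → p₁ ≤ Pb q E →
      CH (cond q E True) (kpA D n K₀ z i j (i - S' * an) (j + S' * be) (U * z) (bbn * z))
        (fun ω => (D.c i j ω, thr D J (w₀ + j * z) ω)) ≤ F₀ * z →
      Pb q (fun ω => ¬ Gdk D n K₀ z i j (i - S' * an) (j + S' * be) (U * z) (bbn * z) ω) ≤ e →
      SDat.H1' ((shA D (plc i j be co al) q J (w₀ + j * z) ω₀ n (U * z) N K₀ z (bbn * z)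
        (i - S' * an, j + S' * be) (i + an, j - be)).wp (cond q E True)) ι ∧
      SDat.H2 ((shA D (plc i j be co al) q J (w₀ + j * z) ω₀ n (U * z) N K₀ z (bbn * z)
        (i - S' * an, j + S' * be) (i + an, j - be)).wp (cond q E True)) ι ∧
      SDat.H3 ((shA D (plc i j be co al) q J (w₀ + j * z) ω₀ n (U * z) N K₀ z (bbn * z)
        (i - S' * an, j + S' * be) (i + an, j - be)).wp (cond q E True)) ι ∧
      SDat.H5 ((shA D (plc i j be co al) q J (w₀ + j * z) ω₀ n (U * z) N K₀ z (bbn * z)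
        (i - S' * an, j + S' * be) (i + an, j - be)).wp (cond q E True)) (h / 2) κ₀ π₀ := by
  obtain ⟨C₂, hC₂, hH2⟩ := h2_sh n K K₀ lam gam C₁ hn hC₁ hK cN
  obtain ⟨C₃, hC₃, hH3⟩ := h3_sh n K lam gam C₁ hC₁ cN
  obtain ⟨U₅, e₅, he₅, hH5⟩ := h5 n K K₀ B C₁ h κ₀ (p₁ * π₀) bbn hn hB hK (by linarith) hh hh1 hκ₀
    (by positivity) (Nat.cast_nonneg _)
  have hl0 : 0 < Real.log 2 := Real.log_pos one_lt_two
  have hl1 : Real.log 2 ≤ 1 := by
    have := Real.log_two_lt_d9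
    linarith
  have hl2 : 1 / 2 ≤ Real.log 2 := by
    have := Real.log_two_gt_d9
    linarith
  obtain ⟨ι₁, hι₁⟩ : ∃ ι₁ : ℝ, ι₁ = p₁ * ι / 2 := ⟨_, rfl⟩
  have hι₁0 : 0 < ι₁ := by rw [hι₁]; positivity
  have hC₂0 : 0 < C₂ := by linarith
  -- the number of steps
  obtain ⟨Ua, hUa⟩ := exists_nat_ge ((F₀ + 2 / p₁) / ι + 4 / (p₁ * ι))
  obtain ⟨Ub, hUb⟩ := exists_nat_ge (4 * (C₂ + C₂ * bbn) / ι₁ + 4 * C₃ / ι₁ + 4 / ι₁)
  refine ⟨Ua + Ub + U₅ + 1, fun U hU => ?_⟩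
  have hUr : (Ua : ℝ) + Ub + U₅ + 1 ≤ U := by exact_mod_cast hU
  have hUa0 : (0 : ℝ) ≤ Ua := Nat.cast_nonneg _
  have hUb0 : (0 : ℝ) ≤ Ub := Nat.cast_nonneg _
  have hU50 : (0 : ℝ) ≤ U₅ := Nat.cast_nonneg _
  have hU0 : (1 : ℝ) ≤ U := by linarith
  -- consequences
  have u1 : F₀ + 2 / p₁ ≤ ι * U := by
    have h1 : (F₀ + 2 / p₁) / ι ≤ U := by
      have : 0 ≤ 4 / (p₁ * ι) := by positivity
      linarith
    rw [div_le_iff₀ hι] at h1
    linarith
  have u2 : 2 / p₁ ≤ ι * U / 2 := by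
    have h1 : 4 / (p₁ * ι) ≤ U := by
      have : 0 ≤ (F₀ + 2 / p₁) / ι := by positivity
      linarith
    rw [div_le_iff₀ (by positivity)] at h1
    rw [div_le_iff₀ hp₁]
    have h2 : (U : ℝ) * (p₁ * ι) = ι * U * p₁ := by ring
    linarith
  have u3 : C₂ + C₂ * bbn ≤ ι₁ / 4 * U := by
    have h1 : 4 * (C₂ + C₂ * bbn) / ι₁ ≤ U := by
      have : 0 ≤ 4 * C₃ / ι₁ := by positivity
      have : 0 ≤ 4 / ι₁ := by positivity
      linarith
    rw [div_le_iff₀ hι₁0] at h1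
    linarith
  have u4 : C₃ ≤ ι₁ / 4 * U := by
    have h1 : 4 * C₃ / ι₁ ≤ U := by
      have : 0 ≤ 4 * (C₂ + C₂ * bbn) / ι₁ := by positivity
      have : 0 ≤ 4 / ι₁ := by positivity
      linarith
    rw [div_le_iff₀ hι₁0] at h1
    linarith
  have u5 : 4 ≤ ι₁ * U := by
    have h1 : 4 / ι₁ ≤ U := by
      have : 0 ≤ 4 * (C₂ + C₂ * bbn) / ι₁ := by positivity
      have : 0 ≤ 4 * C₃ / ι₁ := by positivity
      linarith
    rw [div_le_iff₀ hι₁0] at h1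
    linarith
  obtain ⟨S, hS⟩ := exists_nat_ge ((U : ℝ) + 2 * C₁)
  obtain ⟨W₂, hW₂⟩ := exists_wok n lam hlam C₁ cN U
  refine ⟨min e₅ (ι₁ / (4 * C₂)), W₂ + S + 1, S + 1, lt_min he₅ (by positivity), ?_⟩
  intro W be co al an hWW hP S' hS'
  have hWk : WOk n lam C₁ cN U W := hW₂.mono hlam (by omega)
  have hWU : (U : ℝ) + 2 * C₁ ≤ W := hS.trans (by exact_mod_cast (by omega : S ≤ W))
  have hW1 : 1 ≤ W := by omega
  have hSS : (U : ℝ) + 2 * C₁ ≤ S' := hS.trans (by exact_mod_cast (by omega : S ≤ S'))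
  have hS'1 : 1 ≤ S' := by omega
  obtain ⟨G, hG⟩ := exists_nat_ge ((U : ℝ) / gam n)
  refine ⟨(S + 1) * an + S' * an + S' * be + (S + 1) * be + B * U + U + an + G + 2, fun M hRM => ?_⟩
  have hM2 : 2 ≤ M := by omega
  obtain ⟨κ₂, z₂, hκ₂, hH2⟩ := hH2 M (ι₁ / 4) hM2 (by positivity)
  obtain ⟨κ₃, z₃, hκ₃, hH3⟩ := hH3 M (ι₁ / 4) hM2 (by positivity)
  refine ⟨min κ₂ (min κ₃ 1), p₁ * π₀, z₂ + z₃ + 1, lt_min hκ₂ (lt_min hκ₃ one_pos),
    by positivity, ?_⟩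
  intro J a₀ w₀ z i j D q ω₀ E hz hRi hRi' hRj hRj' hO hL hNF hT hE hk hg
  have hκ2 : min κ₂ (min κ₃ 1) ≤ κ₂ := min_le_left _ _
  have hκ3 : min κ₂ (min κ₃ 1) ≤ κ₃ := (min_le_right _ _).trans (min_le_left _ _)
  have hκ1 : min κ₂ (min κ₃ 1) ≤ 1 := (min_le_right _ _).trans (min_le_right _ _)
  obtain ⟨κ, hκ⟩ : ∃ κ, κ = min κ₂ (min κ₃ 1) := ⟨_, rfl⟩
  rw [← hκ] at hκ2 hκ3 hκ1 hO hL hT
  have hz1 : 1 ≤ z := by omega
  have hzr : (1 : ℝ) ≤ z := by exact_mod_cast hz1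
  have hC0 : 0 ≤ C₁ := by linarith
  have hq := hO.isLaw
  -- the places
  have hb1 : (S + 1) * be ≤ j := by omega
  have hbe : be ≤ j := le_trans (Nat.le_mul_of_pos_left be (Nat.succ_pos S)) hb1
  have hPlc : Plc D n z (U * z) cN M (plc i j be co al) :=
    plc_of hO hC0 hlam hP hWk hc (by omega) (by omega) hbe
  have hPln : Pln D n z (U * z) cN M (plc i j be co al) (i + an, j - be) :=
    pln_of hO hn hC0 hP hWk hc (by omega) (by omega) hbe
  have hPlg : Plg D n z (U * z) cN M (plc i j be co al) (i + an, j - be) an be S S' :=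
    plg_of (S := S) (S' := S') hO hC0 hP hlam hWk hS hz1 (by omega) (by omega) hb1 (by omega) cN
  have hDir : ∀ r, Dir D n z (U * z) cN M (plc i j be co al) r := fun r =>
    dir_of hO hC0 hP hW1 hWU hS (by omega) (by omega) hb1 cN r
  have hFat : Fat D n i j (i - S' * an) (j + S' * be) :=
    own_fat hO hP hWk hS'1 (by omega) (by omega) (by omega)
  have hdeep : D.g i j n + U * z ≤ D.g (i - S' * an) (j + S' * be) n :=
    own_deep hO hn hP (S' := S') (i₁ := i) (j₁ := j) (x := U) (by omega) (by omega) (by omega) (by omega)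
      (by omega) (by
        have k1 : (S' : ℝ) * 1 ≤ S' * (2 * C₁ + 1) :=
          mul_le_mul_of_nonneg_left (by linarith) (Nat.cast_nonneg S')
        linarith)
  have hful := ful_lla (i := i) (j := j) (S' := S') (V := B * U) hL.1 hP hW1 hS'1 (by omega) (by omega) (by omega)
    (show B * U ≤ M by omega)
  have hXz : z ≤ U * z := by
    have : 1 ≤ U := by omega
    exact Nat.le_mul_of_pos_left z this
  have hXr : ((U * z : ℕ) : ℝ) = U * z := by push_cast; ring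
  have hUz : U * z / z = U := Nat.mul_div_cancel U (by omega)
  -- the window
  have hwJ : w₀ + j * z + U * z ≤ J := by
    have e1 := hO.top
    have e2 := hO.thin
    have e3 : (j + U) * z ≤ (M + 1) * z := Nat.mul_le_mul_right z (by omega)
    have e4 : (j + U) * z = j * z + U * z := by ring
    omega
  have hLn := hO.ln_w
  have hthr := thr_full (D := D) (J := J) (w := w₀ + j * z) hq (Nat.le_add_right _ _) (by omega)
    hLn hT
  -- the event
  have hPE : p₁ ≤ Pr q E := by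
    refine hE.trans (le_of_eq ?_)
    exact (Pool.MIC.law_True q E).symm
  have hPE0 : 0 < Pr q E := hp₁.trans_le hPE
  have hthE := thr_on hq hthr E hPE0
  -- numbers
  have hz0 : (0 : ℝ) ≤ z := by linarith
  obtain ⟨Y, hY⟩ : ∃ Y : ℝ, Y = U * z := ⟨_, rfl⟩
  have hY0 : 0 ≤ Y := by rw [hY]; positivity
  have v1 : F₀ * z + 2 / p₁ * z ≤ ι * Y := by
    have := mul_le_mul_of_nonneg_right u1 hz0
    rw [hY]
    linarith
  have v2 : 2 / p₁ * z ≤ ι * Y / 2 := by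
    have := mul_le_mul_of_nonneg_right u2 hz0
    rw [hY]
    linarith
  have v3 : (C₂ + C₂ * bbn) * z ≤ ι₁ / 4 * Y := by
    have := mul_le_mul_of_nonneg_right u3 hz0
    rw [hY]
    linarith
  have v4 : C₃ * z ≤ ι₁ / 4 * Y := by
    have := mul_le_mul_of_nonneg_right u4 hz0
    rw [hY]
    linarith
  have v5 : 4 ≤ ι₁ * Y := by
    have := mul_le_mul_of_nonneg_right u5 hz0
    rw [hY]
    linarith
  rw [← hY] at hXr
  have hιY : 0 ≤ ι₁ * Y := by positivity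
  have hιY' : 0 ≤ ι * Y := by positivity
  have hιp : ι * p₁ = 2 * ι₁ := by
    rw [hι₁]
    ring
  have he1 : (κ * z + Real.log 2) / Pr q E ≤ 2 / p₁ * z := by
    have k1 : κ * z + Real.log 2 ≤ 2 * z := by
      have : κ * z ≤ 1 * z := mul_le_mul_of_nonneg_right hκ1 hz0
      linarith
    calc (κ * z + Real.log 2) / Pr q E ≤ 2 * z / Pr q E :=
          div_le_div_of_nonneg_right k1 hPE0.le
      _ ≤ 2 * z / p₁ := div_le_div_of_nonneg_left (by positivity) hp₁ hPE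
      _ = 2 / p₁ * z := by ring
  refine ⟨?_, ?_, ?_, ?_⟩
  · refine h1_of (e := 2 / p₁ * z) (F := F₀ * z) (i - S' * an, j + S' * be) (i + an, j - be) ω₀
      (Pool.SLO.condG_law hq.nonneg hPE0)
      (fun ω hω => ((cond_pos_iff hq.nonneg _ _ ω).1 hω).1) ?_ (by omega) ?_ hk ?_ ?_
    · exact det_c hO (a := (i, j)) (show i ≤ M by omega) (show j ≤ M by omega) le_rfl (by omega)
    · refine le_trans ?_ hthE
      linarith
    · rw [hXr]
      exact v1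
    · rw [hXr]
      have k1 : ι * Y * (1 / 2) ≤ ι * Y * Real.log 2 := mul_le_mul_of_nonneg_left hl2 hιY'
      linarith
  · have k1 := hH2 J a₀ w₀ z (U * z) (n - 1) N (bbn * z) κ κ ι₁ D q (plc i j be co al)
      (i + an, j - be) an be S S' ω₀ (by omega) hXz hκ2 hκ1 hO
      (TmU_mono' hT hκ2) hL.2 hPlc hPln hPlg hFat hdeep (Nat.mul_pos hbb hz1) (by
        have g0 : Pb q (fun ω => ¬ Gdk D n K₀ z i j (i - S' * an) (j + S' * be) (U * z)
          (bbn * z) ω) ≤ ι₁ / (4 * C₂) := hg.trans (min_le_right _ _)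
        have g1 : C₂ * ((U * z : ℕ) : ℝ) * Pb q (fun ω => ¬ Gdk D n K₀ z i j (i - S' * an)
            (j + S' * be) (U * z) (bbn * z) ω) ≤ C₂ * ((U * z : ℕ) : ℝ) * (ι₁ / (4 * C₂)) :=
          mul_le_mul_of_nonneg_left g0 (by positivity)
        have g2 : C₂ * ((U * z : ℕ) : ℝ) * (ι₁ / (4 * C₂)) = ι₁ / 4 * ((U * z : ℕ) : ℝ) := by
          field_simp
        rw [g2] at g1
        have g5 : ((bbn * z : ℕ) : ℝ) = bbn * z := by push_cast; ring
        show C₂ * (z : ℝ) + C₂ * ((bbn * z : ℕ) : ℝ) + ι₁ / 4 * ((U * z : ℕ) : ℝ) +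
          C₂ * ((U * z : ℕ) : ℝ) * Pb q (fun ω => ¬ Gdk D n K₀ z i j (i - S' * an)
            (j + S' * be) (U * z) (bbn * z) ω) ≤ ι₁ * ((U * z : ℕ) : ℝ)
        rw [g5]
        rw [hXr] at g1 ⊢
        linarith)
    refine SDat.ev_H2 (d := shA D (plc i j be co al) q J (w₀ + j * z) ω₀ n (U * z) N K₀ z (bbn * z)
        (i - S' * an, j + S' * be) (i + an, j - be)) hq k1 E hp₁ hPE ?_
    show (ι₁ * ((U * z : ℕ) : ℝ) + Real.log 2) / p₁ ≤ ι * ((U * z : ℕ) : ℝ)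
    rw [div_le_iff₀ hp₁, hXr]
    have g2 : ι * Y * p₁ = 2 * (ι₁ * Y) := by
      rw [mul_right_comm, hιp]
      ring
    rw [g2]
    linarith
  · have k1 := hH3 J a₀ w₀ z (U * z) N K₀ (bbn * z) (n - 1) κ κ ι₁ D q (plc i j be co al)
      (i - S' * an, j + S' * be) (i + an, j - be) ω₀ (by omega) hXz hκ3 hκ1 hPlc hO
      (TmU_mono' hT hκ3) hL.2 (fun r s hrs => by
        show i + al r ≤ i + al s
        have := hP.mono hrs
        omega) hDir (fun r => by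
        rw [hUz]
        show i + al r + U ≤ M
        have := hP.gapn r
        omega) (by
        rw [hXr]
        have g4 : ι₁ * Y * (1 / 2) ≤ ι₁ * Y * Real.log 2 := mul_le_mul_of_nonneg_left hl2 hιY
        linarith)
    refine SDat.ev_H3 (d := shA D (plc i j be co al) q J (w₀ + j * z) ω₀ n (U * z) N K₀ z (bbn * z)
        (i - S' * an, j + S' * be) (i + an, j - be)) (x := ι₁ * ((U * z : ℕ) : ℝ) * Real.log 2) hq
      (fun l r => yd_all D (plc i j be co al) q J (w₀ + j * z) ω₀ (U * z) l r) (by positivity)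
      (fun r => ?_) E hp₁ hPE ?_
    · have k2 := k1 r
      refine le_trans (le_of_eq ?_) k2
      show ((U * z : ℕ) : ℝ) * Real.log 2 - ι₁ * ((U * z : ℕ) : ℝ) * Real.log 2 =
        (1 - ι₁) * ((U * z : ℕ) : ℝ) * Real.log 2
      ring
    · show (ι₁ * ((U * z : ℕ) : ℝ) * Real.log 2 + 3 * Real.log 2) / p₁ ≤
        ι * ((U * z : ℕ) : ℝ) * Real.log 2
      rw [div_le_iff₀ hp₁, hXr]
      have g2 : ι * Y * Real.log 2 * p₁ = 2 * (ι₁ * Y) * Real.log 2 := by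
        have : ι * Y * Real.log 2 * p₁ = ι * p₁ * (Y * Real.log 2) := by ring
        rw [this, hιp]
        ring
      rw [g2]
      have g3 : 3 * Real.log 2 ≤ ι₁ * Y * Real.log 2 :=
        mul_le_mul_of_nonneg_right (by linarith) hl0.le
      linarith
  · refine SDat.ev_H5 (d := shA D (plc i j be co al) q J (w₀ + j * z) ω₀ n (U * z) N K₀ z (bbn * z)
        (i - S' * an, j + S' * be) (i + an, j - be)) hπ₀.le E hp₁ hPE ?_
    have k1 := hH5 (J := J) (a₀ := a₀) (w₀ := w₀) (z := z) (M := M) (X := U * z) (U := U)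
      (bb := bbn * z) (N := N) (κ' := κ) (plc i j be co al) (i - S' * an, j + S' * be)
      (i + an, j - be) ω₀ hO hNF le_rfl hκ1 hz1 (Nat.mul_le_mul_right z (by omega)) le_rfl
      (show i + B * U ≤ M by omega) (by
        show (U : ℝ) ≤ gam n * (M - j)
        rw [div_le_iff₀ hgn] at hG
        have h1 : (j : ℝ) + G ≤ M := by exact_mod_cast (by omega : j + G ≤ M)
        have h2 : gam n * G ≤ gam n * (M - j) :=
          mul_le_mul_of_nonneg_left (by linarith) hgn.le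
        linarith) (show j ≤ M by omega) (show i - S' * an ≤ M by omega)
      (show j + S' * be ≤ M by omega) hFat hdeep (Nat.mul_pos hbb hz1)
      (by push_cast; exact le_rfl) (by
        have e1 : B * (U * z) = B * U * z := by ring
        show ((n - 1 : ℕ) : ℝ) * (((B * (U * z) : ℕ) : ℝ) * Real.log 2) - κ * z ≤
          CH q (D.vd n i j (B * (U * z))) _
        rw [e1]
        exact hful) (hg.trans (min_le_left _ _))
    exact k1

end Pool.LSH
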