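import Pool.Agent.H7.MIC.Wy
import Pool.Agent.H24.MIC.Pth2

/-!
# Digital lines in the grid of a cell

All neighbouring labels of the grid agree on one large event (`NbA`, `nba_ev`): the constant of the
exponent depends neither on the number of windows nor on the event. `dp A B s`: the digital line
from the place `A` to the place `B` in `s` steps, every step moves to a neighbour.
-/

set_option autoImplicit false

namespace Pool.LSH

open Finset Real MvPolynomial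
open Pool.Agent.H49.Ent Pool.Agent.H32.Dense Pool.STK Pool.STAT Pool.MIC.Frm Pool.MIC24 Pool.MIC7
open Pool.BFL (Pb)

/-- Neighbouring places. -/
def Nb (p p' : ℕ × ℕ) : Prop :=
  p.1 ≤ p'.1 + 1 ∧ p'.1 ≤ p.1 + 1 ∧ p.2 ≤ p'.2 + 1 ∧ p'.2 ≤ p.2 + 1

/-- All neighbouring labels of the grid agree. -/
def NbA (D : NDat2) (n M : ℕ) (E : ℝ) (ω : D.Ω) : Prop :=
  ∀ p p' : ℕ × ℕ, p.1 + 1 < M → p'.1 + 1 < M → p.2 ≤ M → p'.2 ≤ M → Nb p p' → Adj D n E p p' ω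

/-- Two neighbouring labels. -/
theorem nb_bad (n K : ℕ) (lam gam : ℕ → ℝ) (C₁ : ℝ) (hlam : ∀ l, 1 ≤ lam l)
    (hgam : ∀ l, 0 ≤ gam l) (hC : 0 ≤ C₁) : ∃ c : ℝ, 0 < c ∧ ∀ η : ℝ, 0 < η → η ≤ 1 →
    ∃ (κ₀ : ℝ) (z₀ : ℕ), 0 < κ₀ ∧ ∀ (D : NDat2) (J a₀ w₀ z M : ℕ) (κ : ℝ) (q : D.Ω → ℝ),
      D.Ok2 n K J a₀ w₀ z M lam gam κ C₁ q → κ ≤ κ₀ → z₀ ≤ z → ∀ p p' : ℕ × ℕ,
      p.1 + 1 < M → p'.1 + 1 < M → p.2 ≤ M → p'.2 ≤ M → Nb p p' →
      Pb q (fun ω => ¬ Adj D n (Real.exp (c * z)) p p' ω) ≤ η := by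
  obtain ⟨Λ, hΛ⟩ : ∃ Λ : ℝ, Λ = ∑ l ∈ range (n + 1), (lam l + gam l) := ⟨_, rfl⟩
  have hl : ∀ l ≤ n, lam l + gam l ≤ Λ := fun l hl => by
    rw [hΛ]
    exact Finset.single_le_sum (f := fun l => lam l + gam l)
      (fun i _ => by linarith [hlam i, hgam i]) (mem_range.2 (by omega))
  obtain ⟨S, hS⟩ := exists_nat_ge (2 * Λ + 2 * C₁ + 1)
  obtain ⟨c, hc, h⟩ := adj_ev n K S
  refine ⟨c, hc, fun η hη hη1 => ?_⟩
  obtain ⟨κ₀, z₀, hκ₀, h2⟩ := h η hη hη1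
  refine ⟨κ₀, z₀, hκ₀, ?_⟩
  intro D J a₀ w₀ z M κ q hO hκ hz p p' h1 h1' hM hM' hnb
  obtain ⟨n1, n2, n3, n4⟩ := hnb
  have hz0 : (0 : ℝ) ≤ z := Nat.cast_nonneg z
  have hΛ0 : 0 ≤ Λ := by
    have := hl 0 (Nat.zero_le _)
    linarith [hlam 0, hgam 0]
  -- the refinement
  obtain ⟨r, hr⟩ : ∃ r : ℕ × ℕ, r = (max p.1 p'.1 + 1, max p.2 p'.2) := ⟨_, rfl⟩
  have r1 : r.1 = max p.1 p'.1 + 1 := by rw [hr]
  have r2 : r.2 = max p.2 p'.2 := by rw [hr]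
  -- comparison of levels
  have cmp : ∀ (p p' : ℕ × ℕ), p.1 ≤ M → p.2 ≤ M → p'.1 ≤ M → p'.2 ≤ M →
      p.1 ≤ p'.1 + 2 → p.2 ≤ p'.2 + 1 → ∀ l ≤ n, D.g p.1 p.2 l ≤ D.g p'.1 p'.2 l + S * z := by
    intro p p' a1 a2 a3 a4 a5 a6 l hln
    rcases Nat.eq_zero_or_pos l with rfl | hl0
    · rw [hO.g_zero, hO.g_zero]
      have hSX : 1 ≤ S := by
        have : (1 : ℝ) ≤ S := by linarith
        exact_mod_cast this
      have b1 : p.2 * z ≤ (p'.2 + 1) * z := Nat.mul_le_mul_right z a6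
      have b2 : 1 * z ≤ S * z := Nat.mul_le_mul_right z hSX
      rw [Nat.add_mul] at b1
      omega
    · have b1 := hom2 hO a1 a2 a3 a4 hl0 hln
      have e1 : (p.1 : ℝ) ≤ p'.1 + 2 := by exact_mod_cast a5
      have e2 : (p.2 : ℝ) ≤ p'.2 + 1 := by exact_mod_cast a6
      have e3 := mul_le_mul_of_nonneg_left e1 (by linarith [hlam l] : 0 ≤ lam l)
      have e4 := mul_le_mul_of_nonneg_left e2 (hgam l)
      have e5 := hl l hln
      have e6 := hgam l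
      have b2 : (lam l * p.1 + gam l * p.2) * z ≤ (lam l * p'.1 + gam l * p'.2 + 2 * Λ) * z :=
        mul_le_mul_of_nonneg_right (by linarith) hz0
      have b3 : (2 * Λ + 2 * C₁) * z ≤ S * z :=
        mul_le_mul_of_nonneg_right (by linarith) hz0
      have b4 : (D.g p.1 p.2 l : ℝ) ≤ D.g p'.1 p'.2 l + S * z := by linarith
      exact_mod_cast b4
  have hr1 : r.1 < M := by rw [r1]; omega
  have hr2 : r.2 ≤ M := by rw [r2]; omega
  exact h2 D J a₀ w₀ z M lam gam κ C₁ q hO hκ hz p p' r (by omega) hM (by omega) hM' hr1 hr2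
    (Pool.ADJ.c_det hO (by rw [r2]; omega) (by rw [r1, r2]; omega) hr1.le hr2)
    (Pool.ADJ.c_det hO (by rw [r2]; omega) (by rw [r1, r2]; omega) hr1.le hr2)
    (cmp p r (by omega) hM hr1.le hr2 (by rw [r1]; omega) (by rw [r2]; omega))
    (cmp r p hr1.le hr2 (by omega) hM (by rw [r1]; omega) (by rw [r2]; omega))
    (cmp p' r (by omega) hM' hr1.le hr2 (by rw [r1]; omega) (by rw [r2]; omega))
    (cmp p p' (by omega) hM (by omega) hM' (by omega) (by omega))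

/-- **All neighbouring labels of the grid agree** on one large event. -/
theorem nba_ev (n K : ℕ) (lam gam : ℕ → ℝ) (C₁ : ℝ) (hlam : ∀ l, 1 ≤ lam l)
    (hgam : ∀ l, 0 ≤ gam l) (hC : 0 ≤ C₁) : ∃ c : ℝ, 0 < c ∧ ∀ (M : ℕ) (η : ℝ), 0 < η →
    ∃ (κ₀ : ℝ) (z₀ : ℕ), 0 < κ₀ ∧ ∀ (D : NDat2) (J a₀ w₀ z : ℕ) (κ : ℝ) (q : D.Ω → ℝ),
      D.Ok2 n K J a₀ w₀ z M lam gam κ C₁ q → κ ≤ κ₀ → z₀ ≤ z →
      Pb q (fun ω => ¬ NbA D n M (Real.exp (c * z)) ω) ≤ η := by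
  classical
  obtain ⟨c, hc, h⟩ := nb_bad n K lam gam C₁ hlam hgam hC
  refine ⟨c, hc, fun M η hη => ?_⟩
  obtain ⟨F, hF⟩ : ∃ F : Finset ((ℕ × ℕ) × (ℕ × ℕ)),
      F = (range (M + 1) ×ˢ range (M + 1)) ×ˢ (range (M + 1) ×ˢ range (M + 1)) := ⟨_, rfl⟩
  obtain ⟨κ₀, z₀, hκ₀, h2⟩ := h (min 1 (η / (F.card + 1))) (lt_min one_pos (by positivity))
    (min_le_left _ _)
  refine ⟨κ₀, z₀, hκ₀, ?_⟩
  intro D J a₀ w₀ z κ q hO hκ hz
  have hq := hO.isLaw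
  obtain ⟨G, hG⟩ : ∃ G : (ℕ × ℕ) × (ℕ × ℕ) → D.Ω → Prop, G = fun x ω =>
    (x.1.1 + 1 < M ∧ x.2.1 + 1 < M ∧ x.1.2 ≤ M ∧ x.2.2 ≤ M ∧ Nb x.1 x.2) ∧
      ¬ Adj D n (Real.exp (c * z)) x.1 x.2 ω := ⟨_, rfl⟩
  have h3 : Pb q (fun ω => ¬ NbA D n M (Real.exp (c * z)) ω) ≤
      Pb q (fun ω => ∃ x ∈ F, G x ω) := by
    refine Pool.Agent.H39.BFL.Pb_mono hq.nonneg fun ω _ hω => ?_
    unfold NbA at hω
    push Not at hω
    obtain ⟨p, p', a1, a2, a3, a4, a5, a6⟩ := hω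
    refine ⟨(p, p'), ?_, ?_⟩
    · rw [hF, mem_product, mem_product, mem_product, mem_range, mem_range, mem_range, mem_range]
      simp only
      omega
    · rw [hG]
      exact ⟨⟨a1, a2, a3, a4, a5⟩, a6⟩
  refine h3.trans ((Pb_un hq.nonneg F G).trans ?_)
  have h4 : ∀ x ∈ F, Pb q (G x) ≤ η / (F.card + 1) := by
    intro x _
    by_cases hx : x.1.1 + 1 < M ∧ x.2.1 + 1 < M ∧ x.1.2 ≤ M ∧ x.2.2 ≤ M ∧ Nb x.1 x.2
    · refine le_trans (Pool.Agent.H39.BFL.Pb_mono hq.nonneg fun ω _ hω => ?_)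
        ((h2 D J a₀ w₀ z M κ q hO hκ hz x.1 x.2 hx.1 hx.2.1 hx.2.2.1 hx.2.2.2.1
          hx.2.2.2.2).trans (min_le_right _ _))
      rw [hG] at hω
      exact hω.2
    · have : Pb q (G x) ≤ 0 := by
        unfold Pool.BFL.Pb
        refine Finset.sum_nonpos fun ω _ => ?_
        rw [if_neg]
        rw [hG]
        exact fun h => hx h.1
      exact this.trans (by positivity)
  refine (Finset.sum_le_card_nsmul F _ _ h4).trans ?_
  rw [nsmul_eq_mul, mul_div_assoc', div_le_iff₀ (by positivity)]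
  nlinarith

/-! ### Digital lines -/

/-- The digital line on one axis. -/
def dl (a b s k : ℕ) : ℕ := if a ≤ b then a + (b - a) * k / s else a - (a - b) * k / s

theorem dl_zero (a b s : ℕ) : dl a b s 0 = a := by
  unfold dl
  simp

theorem dl_end (a b : ℕ) {s : ℕ} (hs : 0 < s) : dl a b s s = b := by
  unfold dl
  split_ifs with h
  · rw [Nat.mul_div_cancel _ hs]
    omega
  · rw [Nat.mul_div_cancel _ hs]
    omega

theorem dl_le {a b s k : ℕ} (hs : 0 < s) (hk : k ≤ s) : dl a b s k ≤ max a b := by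
  unfold dl
  split_ifs with h
  · have h1 : (b - a) * k / s ≤ b - a :=
      Nat.div_le_of_le_mul (by rw [Nat.mul_comm s]; exact Nat.mul_le_mul_left _ hk)
    omega
  · exact (Nat.sub_le _ _).trans (le_max_left _ _)

theorem min_le_dl {a b s k : ℕ} (hs : 0 < s) (hk : k ≤ s) : min a b ≤ dl a b s k := by
  unfold dl
  split_ifs with h
  · exact (min_le_left _ _).trans (Nat.le_add_right _ _)
  · have h1 : (a - b) * k / s ≤ a - b :=
      Nat.div_le_of_le_mul (by rw [Nat.mul_comm s]; exact Nat.mul_le_mul_left _ hk)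
    omega

/-- A step of a digital line. -/
theorem div_step {x s k : ℕ} (hs : 0 < s) (hx : x ≤ s) :
    x * k / s ≤ x * (k + 1) / s ∧ x * (k + 1) / s ≤ x * k / s + 1 := by
  constructor
  · exact Nat.div_le_div_right (Nat.mul_le_mul_left _ (Nat.le_succ _))
  · rw [Nat.mul_succ]
    calc (x * k + x) / s ≤ (x * k + s) / s := Nat.div_le_div_right (by omega)
      _ = x * k / s + 1 := Nat.add_div_right _ hs

theorem dl_step {a b s k : ℕ} (hs : 0 < s) (hk : k < s) (h : max a b ≤ min a b + s) :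
    dl a b s k ≤ dl a b s (k + 1) + 1 ∧ dl a b s (k + 1) ≤ dl a b s k + 1 := by
  unfold dl
  split_ifs with hab
  · obtain ⟨h1, h2⟩ := div_step (x := b - a) (k := k) hs (by omega)
    omega
  · obtain ⟨h1, h2⟩ := div_step (x := a - b) (k := k) hs (by omega)
    have h3 : (a - b) * (k + 1) / s ≤ a - b :=
      Nat.div_le_of_le_mul (by rw [Nat.mul_comm s]; exact Nat.mul_le_mul_left _ hk)
    omega

/-- The digital line is near to the line. -/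
theorem dl_near {a b s k : ℕ} (hs : 0 < s) (hk : k ≤ s) :
    |(dl a b s k : ℝ) - (a + ((b : ℝ) - a) * (k / s))| ≤ 1 := by
  have hs0 : (0 : ℝ) < s := by exact_mod_cast hs
  have key : ∀ x : ℕ, ((x * k / s : ℕ) : ℝ) ≤ x * (k / s) ∧
      (x : ℝ) * (k / s) ≤ ((x * k / s : ℕ) : ℝ) + 1 := by
    intro x
    have e : (x : ℝ) * (k / s) = ((x * k : ℕ) : ℝ) / s := by
      push_cast
      ring
    rw [e]
    constructor
    · exact Nat.cast_div_le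
    · rw [div_le_iff₀ hs0]
      have h1 := Nat.lt_div_mul_add (a := x * k) hs
      have h2 : ((x * k : ℕ) : ℝ) ≤ ((x * k / s * s + s : ℕ) : ℝ) := by exact_mod_cast h1.le
      push_cast at h2 ⊢
      linarith
  unfold dl
  split_ifs with h
  · obtain ⟨h1, h2⟩ := key (b - a)
    rw [Nat.cast_sub h] at h1 h2
    push_cast at h1 h2 ⊢
    rw [abs_le]
    constructor <;> linarith
  · obtain ⟨h1, h2⟩ := key (a - b)
    have h3 : (a - b) * k / s ≤ a - b :=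
      Nat.div_le_of_le_mul (by rw [Nat.mul_comm s]; exact Nat.mul_le_mul_left _ hk)
    rw [Nat.cast_sub (by omega : b ≤ a)] at h1 h2
    rw [Nat.cast_sub (by omega : (a - b) * k / s ≤ a)]
    have e : ((b : ℝ) - a) * (k / s) = -((a - b) * (k / s)) := by ring
    rw [e, abs_le]
    constructor <;> linarith

/-- The digital line between two places. -/
def dp (A B : ℕ × ℕ) (s k : ℕ) : ℕ × ℕ := (dl A.1 B.1 s k, dl A.2 B.2 s k)

/-- The number of steps. -/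
def ns (A B : ℕ × ℕ) : ℕ := (max A.1 B.1 - min A.1 B.1) + (max A.2 B.2 - min A.2 B.2) + 1

theorem ns_pos (A B : ℕ × ℕ) : 0 < ns A B := Nat.succ_pos _

theorem dp_zero (A B : ℕ × ℕ) (s : ℕ) : dp A B s 0 = A := by
  unfold dp
  rw [dl_zero, dl_zero]

theorem dp_end (A B : ℕ × ℕ) : dp A B (ns A B) (ns A B) = B := by
  unfold dp
  rw [dl_end _ _ (ns_pos _ _), dl_end _ _ (ns_pos _ _)]

theorem dp_nb (A B : ℕ × ℕ) {k : ℕ} (hk : k < ns A B) :
    Nb (dp A B (ns A B) k) (dp A B (ns A B) (k + 1)) := by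
  unfold dp Nb
  simp only
  have h1 := dl_step (a := A.1) (b := B.1) (ns_pos A B) hk (by unfold ns; omega)
  have h2 := dl_step (a := A.2) (b := B.2) (ns_pos A B) hk (by unfold ns; omega)
  exact ⟨h1.1, h1.2, h2.1, h2.2⟩

theorem dp_le {A B : ℕ × ℕ} {k M : ℕ} (hk : k ≤ ns A B) (h1 : A.1 + 1 < M) (h2 : B.1 + 1 < M)
    (h3 : A.2 ≤ M) (h4 : B.2 ≤ M) :
    (dp A B (ns A B) k).1 + 1 < M ∧ (dp A B (ns A B) k).2 ≤ M := by
  unfold dp
  simp only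
  have a1 := dl_le (a := A.1) (b := B.1) (ns_pos A B) hk
  have a2 := dl_le (a := A.2) (b := B.2) (ns_pos A B) hk
  omega

theorem ns_le {A B : ℕ × ℕ} {M : ℕ} (h1 : A.1 ≤ M) (h2 : B.1 ≤ M) (h3 : A.2 ≤ M) (h4 : B.2 ≤ M) :
    ns A B ≤ 2 * M + 1 := by
  unfold ns
  omega

/-- The neighbours along a digital line. -/
theorem dp_adj {D : NDat2} {n M : ℕ} {E : ℝ} {ω : D.Ω} (h : NbA D n M E ω) {A B : ℕ × ℕ}
    (h1 : A.1 + 1 < M) (h2 : B.1 + 1 < M) (h3 : A.2 ≤ M) (h4 : B.2 ≤ M) :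
    ∀ k < ns A B, Adj D n E (dp A B (ns A B) k) (dp A B (ns A B) (k + 1)) ω := by
  intro k hk
  have a1 := dp_le (k := k) hk.le h1 h2 h3 h4
  have a2 := dp_le (k := k + 1) hk h1 h2 h3 h4
  exact h _ _ a1.1 a2.1 a1.2 a2.2 (dp_nb A B hk)

end Pool.LSH
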