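import Pool.Agent.H55.LSH.Cl
import Pool.Agent.H12.LSH.Shc
import Pool.Agent.H12.MICA.Tm
import Pool.Agent.H48.GEN.LevT

/-!
# The sheets of a cell: the times

`thr_full`, `thr_on`: the relative time is full given the line and the window, also on an event.
`mi_time`: (context, time, data which are few given these) is nearly independent of the line.
`h1_of`: (H1) of `shA`, for any law for which the time is full.
-/

set_option autoImplicit false

namespace Pool.LSH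

open Finset MvPolynomial
open Pool.Agent.H49.Ent Pool.Agent.H32.Dense Pool.STK Pool.STAT Pool.MIC Pool.MicA
open Pool.BFL (Pl Pb)
open Pool.KAF (Pr)
open Pool.KVA (MI)

section

variable {S T U : Type} {D : NDat2} {J w : ℕ}

/-- The relative time is at most full. -/
theorem thr_le {p : D.Ω → ℝ} (hp : IsLaw p) (Y : D.Ω → S) :
    CH p (thr D J w) Y ≤ ((J - w : ℕ) : ℝ) * Real.log 2 := by
  have h := CH_le_card hp.nonneg hp.sum_one (thr D J w) Y (fun _ => range (2 ^ (J - w)))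
    (fun ω _ => mem_range.2 (Nat.mod_lt _ (by positivity)))
  rw [Ex_const hp.sum_one, card_range] at h
  push_cast at h
  rwa [Real.log_pow] at h

/-- The relative time is full. -/
theorem thr_full {w₀ z : ℕ} {κ : ℝ} {q : D.Ω → ℝ} (hq : IsLaw q) (hw : w₀ ≤ w) (hwJ : w ≤ J)
    (hL : Det q D.ln (fun ω => D.T ω / 2 ^ (J - w₀))) (hU : D.TmU J w₀ z κ q) :
    ((J - w : ℕ) : ℝ) * Real.log 2 - κ * z ≤ CH q (thr D J w) (D.wn J w) := by
  have h1 := Pool.TMS.win_low hq D.T D.ln hw hwJ hL hU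
  have h2 := Pool.TMS.CH_rt hq D.T J w (D.wn J w) (fun ω ω' _ _ e => (Prod.ext_iff.1 e).2)
  exact h1.trans (le_of_eq h2.symm)

/-- The relative time is full on an event. -/
theorem thr_on {q : D.Ω → ℝ} (hq : IsLaw q) {e : ℝ}
    (h : ((J - w : ℕ) : ℝ) * Real.log 2 - e ≤ CH q (thr D J w) (D.wn J w)) (E : Set D.Ω)
    (hE : 0 < Pr q E) :
    ((J - w : ℕ) : ℝ) * Real.log 2 - (e + Real.log 2) / Pr q E ≤
      CH (cond q (fun ω => ω ∈ E) True) (thr D J w) (D.wn J w) := by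
  have h1 := Pool.DY1.ev_ge hq E (thr D J w) (D.wn J w) (((J - w : ℕ) : ℝ) * Real.log 2) hE
    (fun p hp _ => thr_le hp _)
  refine le_trans ?_ h1
  have h2 : (((J - w : ℕ) : ℝ) * Real.log 2 - CH q (thr D J w) (D.wn J w) + Real.log 2) / Pr q E ≤
      (e + Real.log 2) / Pr q E := div_le_div_of_nonneg_right (by linarith) hE.le
  linarith

/-- The first digits of the relative time are full. -/
theorem dig_full {p : D.Ω → ℝ} (hp : IsLaw p) {e : ℝ} {X : ℕ} (hX : X ≤ J - w)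
    (h : ((J - w : ℕ) : ℝ) * Real.log 2 - e ≤ CH p (thr D J w) (D.wn J w)) :
    X * Real.log 2 - e ≤ CH p (fun ω => ⌊(2 : ℝ) ^ X * (((thr D J w ω % 2 ^ (J - w) : ℕ) : ℝ) /
      2 ^ (J - w))⌋) (D.wn J w) := by
  have h1 := Pool.LEV.CH_dig_ge hp (fun ω => (thr D J w ω : ℤ)) (J - w - X) (D.wn J w)
  have h2 : CH p (fun ω => (thr D J w ω : ℤ)) (D.wn J w) = CH p (thr D J w) (D.wn J w) := by
    refine CH_congr hp.nonneg ?_ ?_ (fun _ _ _ _ e => e) (fun _ _ _ _ e => e)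
    · intro ω ω' _ _ e
      have : (thr D J w ω : ℤ) = thr D J w ω' := (Prod.ext_iff.1 e).1
      show thr D J w ω = thr D J w ω'
      exact_mod_cast this
    · intro ω ω' _ _ e
      have : thr D J w ω = thr D J w ω' := (Prod.ext_iff.1 e).1
      show (thr D J w ω : ℤ) = thr D J w ω'
      exact_mod_cast this
  rw [h2] at h1
  have h3 : (fun ω => ⌊(2 : ℝ) ^ X * (((thr D J w ω % 2 ^ (J - w) : ℕ) : ℝ) / 2 ^ (J - w))⌋) =
      fun ω => (thr D J w ω : ℤ) / 2 ^ (J - w - X) := by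
    funext ω
    have e0 : thr D J w ω % 2 ^ (J - w) = thr D J w ω := Nat.mod_mod _ _
    rw [e0]
    have e1 : (2 : ℝ) ^ X * ((thr D J w ω : ℝ) / 2 ^ (J - w)) =
        (thr D J w ω : ℝ) / ((2 ^ (J - w - X) : ℕ) : ℝ) := by
      have e2 : (2 : ℝ) ^ (J - w) = 2 ^ X * 2 ^ (J - w - X) := by
        rw [← pow_add]
        congr 1
        omega
      rw [e2]
      push_cast
      field_simp
    rw [e1]
    have e3 : ((thr D J w ω : ℝ) / ((2 ^ (J - w - X) : ℕ) : ℝ)) =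
        (((thr D J w ω : ℤ) : ℝ) / ((2 ^ (J - w - X) : ℕ) : ℝ)) := by
      push_cast
      rfl
    rw [e3, Int.floor_div_natCast, Int.floor_intCast]
    push_cast
    rfl
  rw [h3]
  have e4 : ((J - w - X : ℕ) : ℝ) = ((J - w : ℕ) : ℝ) - X := by
    rw [Nat.cast_sub hX]
  rw [e4] at h1
  linarith

/-- **The time and few data are nearly independent of the line**, given the context. -/
theorem mi_time {p : D.Ω → ℝ} (hp : IsLaw p) {e F : ℝ}
    (h : ((J - w : ℕ) : ℝ) * Real.log 2 - e ≤ CH p (thr D J w) (D.wn J w)) (c : D.Ω → S)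
    (hc : Det p (D.wn J w) c) (kap : D.Ω → T)
    (hk : CH p kap (fun ω => (c ω, thr D J w ω)) ≤ F) (B : D.Ω → U)
    (hB : Det p c B) (hB' : Det p B c) :
    MI p (fun ω => (c ω, (thr D J w ω, kap ω))) (D.wn J w) B ≤ F + e := by
  have h0 := hp.nonneg
  rw [Pool.M5.MI_eq h0]
  have h1 : CH p (fun ω => (c ω, (thr D J w ω, kap ω))) B ≤
      CH p (thr D J w) B + CH p kap (fun ω => (c ω, thr D J w ω)) := by
    have k1 := CH_chain h0 kap (thr D J w) B
    have k2 : CH p (fun ω => (c ω, (thr D J w ω, kap ω))) B ≤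
        CH p (fun ω => (kap ω, thr D J w ω)) B := by
      refine CH_mono_left h0 ?_
      intro ω ω' a a' hl
      have l1 : (kap ω, thr D J w ω) = (kap ω', thr D J w ω') := (Prod.ext_iff.1 hl).1
      have l2 : c ω = c ω' := hB' ω ω' a a' (Prod.ext_iff.1 hl).2
      exact Prod.ext l2 (Prod.ext (Prod.ext_iff.1 l1).2 (Prod.ext_iff.1 l1).1)
    have k3 : CH p kap (fun ω => (thr D J w ω, B ω)) ≤
        CH p kap (fun ω => (c ω, thr D J w ω)) := by
      refine CH_mono_cond h0 ?_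
      intro ω ω' a a' hl
      exact Prod.ext (hB' ω ω' a a' (Prod.ext_iff.1 hl).2) (Prod.ext_iff.1 hl).1
    linarith
  have h2 : CH p (thr D J w) (D.wn J w) ≤
      CH p (fun ω => (c ω, (thr D J w ω, kap ω))) (fun ω => (D.wn J w ω, B ω)) := by
    have k1 : CH p (thr D J w) (D.wn J w) ≤ CH p (thr D J w) (fun ω => (D.wn J w ω, B ω)) := by
      refine CH_mono_cond h0 ?_
      intro ω ω' a a' hl
      exact Prod.ext hl (hB ω ω' a a' (hc ω ω' a a' hl))
    refine k1.trans (CH_mono_left h0 ?_)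
    intro ω ω' _ _ hl
    exact (Prod.ext_iff.1 (Prod.ext_iff.1 (Prod.ext_iff.1 hl).1).2).1
  have h3 := thr_le (D := D) (J := J) (w := w) hp B
  linarith

end

/-! ### (H1) -/

section

variable {D : NDat2} {n K J a₀ w₀ z M k : ℕ} {lam gam : ℕ → ℝ} {κ C₁ : ℝ} {q : D.Ω → ℝ}
  {π : Pls k}

/-- **(H1) of the sheets of a cell**: any law `p` for which the time is full and the own shape is
few. -/
theorem h1_of {w X N K₀ bb : ℕ} (o' a : ℕ × ℕ) (ω₀ : D.Ω) {p : D.Ω → ℝ} (hp : IsLaw p)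
    (hpq : ∀ ω, 0 < p ω → 0 < q ω) {e F ι : ℝ}
    (hc : Det q (D.wn J w) (D.c π.o.1 π.o.2)) (hXw : X ≤ J - w)
    (h : ((J - w : ℕ) : ℝ) * Real.log 2 - e ≤ CH p (thr D J w) (D.wn J w))
    (hk : CH p (kpA D n K₀ z π.o.1 π.o.2 o'.1 o'.2 X bb)
      (fun ω => (D.c π.o.1 π.o.2 ω, thr D J w ω)) ≤ F)
    (h1 : F + e ≤ ι * X) (h2 : e ≤ ι * X * Real.log 2) :
    ({ shA D π q J w ω₀ n X N K₀ z bb o' a with P := p } : SDat k N N K₀).H1' ι := by
  have hc' : Det p (D.wn J w) (D.c π.o.1 π.o.2) := fun ω ω' a a' hl =>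
    hc ω ω' (hpq ω a) (hpq ω' a') hl
  have hB : ∀ ω, 0 < p ω → cl D q J w ω₀ π.o (D.wn J w ω) = D.c π.o.1 π.o.2 ω := fun ω hω =>
    cl_eq ω₀ hc (hpq ω hω)
  constructor
  · have k1 := mi_time hp h (D.c π.o.1 π.o.2) hc' (kpA D n K₀ z π.o.1 π.o.2 o'.1 o'.2 X bb) hk
      (fun ω => cl D q J w ω₀ π.o (D.wn J w ω))
      (fun ω ω' a a' hl => by
        show cl D q J w ω₀ π.o (D.wn J w ω) = cl D q J w ω₀ π.o (D.wn J w ω')
        rw [hB ω a, hB ω' a', hl])
      (fun ω ω' a a' hl => by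
        have : cl D q J w ω₀ π.o (D.wn J w ω) = cl D q J w ω₀ π.o (D.wn J w ω') := hl
        rwa [hB ω a, hB ω' a'] at this)
    exact k1.trans h1
  · have k1 := dig_full hp hXw h
    refine le_trans ?_ k1
    show (1 - ι) * (X : ℝ) * Real.log 2 ≤ _
    linarith

end

end Pool.LSH
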