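import Pool.Agent.H48.GEN.ShS
import Pool.Agent.H46.S6.DpwA

/-!
# Rewindow: from almost full digits to full first digits

`d.win u`: the lines are cut into windows of length `2 ^ (-u)`. The new time is the fractional part
of `2 ^ u` times the old one, all the data of the line get the number of the window.
-/

set_option autoImplicit false

namespace Pool.LSH

open Finset Real
open Pool.Agent.H49.Ent Pool.Agent.H32.Dense Pool.STK Pool.KAF
open Pool.KVA (MI)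

/-! ### Affine substitution -/

theorem aff_pow {n a' : ℕ} (h : a' ≤ n) (v t r : ℝ) : ((v + t) / r) ^ a' =
    ∑ a : Fin (n + 1), ((a'.choose a : ℝ) * v ^ (a' - (a : ℕ)) / r ^ a') * t ^ (a : ℕ) := by
  rw [div_pow, add_comm, add_pow, Finset.sum_div,
    Fin.sum_univ_eq_sum_range (fun a => ((a'.choose a : ℝ) * v ^ (a' - a) / r ^ a') * t ^ a)]
  refine Finset.sum_subset_zero_on_sdiff (Finset.range_subset_range.2 (by omega)) ?_ ?_
  · intro a ha
    rw [mem_sdiff, mem_range, mem_range] at ha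
    rw [Nat.choose_eq_zero_of_lt (by omega)]
    simp
  · intro a _
    ring

theorem aff_pow' {m i' : ℕ} (h : i' < m) (v t r : ℝ) : ((v + t) / r) ^ (i' + 1) =
    (v / r) ^ (i' + 1) + ∑ i : Fin m,
      (((i' + 1).choose ((i : ℕ) + 1) : ℝ) * v ^ (i' - (i : ℕ)) / r ^ (i' + 1)) *
        t ^ ((i : ℕ) + 1) := by
  rw [aff_pow (n := m) (by omega), Fin.sum_univ_succ]
  congr 1
  · simp [div_pow]
  · refine Finset.sum_congr rfl fun i _ => ?_
    rw [Fin.val_succ, Nat.add_sub_add_right]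

theorem aff_bd {v r : ℝ} (hr : 1 ≤ r) (hv : |v| ≤ r) {a b n : ℕ} (hb : b ≤ a) (c : ℕ)
    (ha : a ≤ n) : |((a.choose c : ℕ) : ℝ) * v ^ b / r ^ a| ≤ 2 ^ n := by
  have hr0 : (0 : ℝ) < r := by linarith
  rw [abs_div, abs_mul, abs_pow, abs_of_pos (by positivity : (0 : ℝ) < r ^ a), Nat.abs_cast,
    div_le_iff₀ (by positivity)]
  have h1 : ((a.choose c : ℕ) : ℝ) ≤ 2 ^ n := by
    have h2 : a.choose c ≤ 2 ^ a := by
      rw [← Nat.sum_range_choose]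
      by_cases hc : c ≤ a
      · exact Finset.single_le_sum (f := fun c => a.choose c) (fun _ _ => Nat.zero_le _)
          (mem_range.2 (by omega))
      · rw [Nat.choose_eq_zero_of_lt (by omega)]
        exact Nat.zero_le _
    calc ((a.choose c : ℕ) : ℝ) ≤ ((2 ^ a : ℕ) : ℝ) := by exact_mod_cast h2
      _ = (2 : ℝ) ^ a := by push_cast; ring
      _ ≤ 2 ^ n := pow_le_pow_right₀ one_le_two ha
  have h3 : |v| ^ b ≤ r ^ a := (pow_le_pow_left₀ (abs_nonneg _) hv b).trans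
    (pow_le_pow_right₀ hr hb)
  exact mul_le_mul h1 h3 (by positivity) (by positivity)

theorem succ_le_two_pow (n : ℕ) : ((n : ℝ) + 1) ≤ 2 ^ n := by
  have := Nat.lt_two_pow_self (n := n)
  exact_mod_cast this

namespace SDat

variable {k n m K : ℕ} (d : SDat k n m K)

/-- The number of the window. -/
noncomputable def vt (u : ℕ) (t : d.Tau) : ℤ := ⌊(2 : ℝ) ^ u * d.th t⌋

/-- **The data in the windows of length `2 ^ (-u)`.** -/
noncomputable def win (u : ℕ) : SDat k n m K where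
  Om := d.Om
  Lam := d.Lam × ℤ
  Tau := d.Tau
  Nu := d.Nu × ℤ
  Ze := d.Ze × ℤ
  Be := d.Be × ℤ
  fin := d.fin
  P := d.P
  L := fun ω => (d.L ω, d.vt u (d.T ω))
  T := d.T
  V := fun l => (d.V l.1, l.2)
  Z := fun j l => (d.Z j l.1, l.2)
  B := fun l => (d.B l.1, l.2)
  y := fun l => d.y l.1
  x := fun l t => d.x l.1 (((l.2 : ℝ) + t) / 2 ^ u)
  sg := fun j z i a b => ∑ a' : Fin (n + 1), d.sg j z.1 i a' b *
    ((((a' : ℕ).choose (a : ℕ) : ℕ) : ℝ) * (z.2 : ℝ) ^ ((a' : ℕ) - (a : ℕ)) /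
      ((2 : ℝ) ^ u) ^ (a' : ℕ))
  q := fun l i => ∑ i' : Fin m, d.q l.1 i' *
    (((((i' : ℕ) + 1).choose ((i : ℕ) + 1) : ℕ) : ℝ) * (l.2 : ℝ) ^ ((i' : ℕ) - (i : ℕ)) /
      ((2 : ℝ) ^ u) ^ ((i' : ℕ) + 1))
  N := d.N
  th := fun t => Int.fract ((2 : ℝ) ^ u * d.th t)
  s := d.s
  F := d.F
  X := d.X

variable (u : ℕ)

theorem win_sheet (j : Fin k) (z : d.Ze × ℤ) (t y : ℝ) (i : Fin k) :
    (d.win u).sheet j z t y i = d.sheet j z.1 (((z.2 : ℝ) + t) / 2 ^ u) y i := by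
  show (∑ a : Fin (n + 1), ∑ b : Fin (n + 1), (∑ a' : Fin (n + 1), d.sg j z.1 i a' b *
    ((((a' : ℕ).choose (a : ℕ) : ℕ) : ℝ) * (z.2 : ℝ) ^ ((a' : ℕ) - (a : ℕ)) /
      ((2 : ℝ) ^ u) ^ (a' : ℕ))) * t ^ (a : ℕ) * y ^ (b : ℕ)) =
    ∑ a : Fin (n + 1), ∑ b : Fin (n + 1), d.sg j z.1 i a b * (((z.2 : ℝ) + t) / 2 ^ u) ^ (a : ℕ) *
      y ^ (b : ℕ)
  have h1 : ∀ a' : Fin (n + 1), (((z.2 : ℝ) + t) / 2 ^ u) ^ (a' : ℕ) = _ := fun a' =>
    aff_pow (n := n) (a' := a') (by have := a'.2; omega) (z.2 : ℝ) t (2 ^ u)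
  simp only [h1, Finset.sum_mul, Finset.mul_sum]
  rw [Finset.sum_comm]
  rw [Finset.sum_congr rfl fun b _ => Finset.sum_comm]
  rw [Finset.sum_comm]
  refine Finset.sum_congr rfl fun a' _ => Finset.sum_congr rfl fun b _ =>
    Finset.sum_congr rfl fun a _ => ?_
  ring

theorem win_frz (j : Fin k) (z : d.Ze × ℤ) (t : ℝ) (i : Fin k) :
    (d.win u).frz j z t i = d.frz j z.1 (((z.2 : ℝ) + t) / 2 ^ u) i := by
  unfold frz
  rw [win_sheet, win_sheet]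

theorem win_up (l : d.Lam × ℤ) (j : Fin k) (t : ℝ) (i : Fin k) :
    (d.win u).up l j t i = d.up l.1 j (((l.2 : ℝ) + t) / 2 ^ u) i := by
  unfold up
  split_ifs with h
  · exact win_frz d u _ _ _ _
  · rfl

/-- The constant which is dropped. -/
noncomputable def wc (l : d.Lam) (v : ℤ) : ℝ := ∑ i : Fin m, d.q l i * ((v : ℝ) / 2 ^ u) ^ (i.val + 1)

theorem win_q (l : d.Lam × ℤ) (t : ℝ) : ∑ i, (d.win u).q l i * t ^ (i.val + 1) =
    ∑ i, d.q l.1 i * (((l.2 : ℝ) + t) / 2 ^ u) ^ (i.val + 1) - d.wc u l.1 l.2 := by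
  have h1 : ∀ i' : Fin m, (((l.2 : ℝ) + t) / 2 ^ u) ^ ((i' : ℕ) + 1) = _ := fun i' =>
    aff_pow' (m := m) i'.2 (l.2 : ℝ) t (2 ^ u)
  show (∑ i : Fin m, (∑ i' : Fin m, d.q l.1 i' *
    (((((i' : ℕ) + 1).choose ((i : ℕ) + 1) : ℕ) : ℝ) * (l.2 : ℝ) ^ ((i' : ℕ) - (i : ℕ)) /
      ((2 : ℝ) ^ u) ^ ((i' : ℕ) + 1))) * t ^ (i.val + 1)) = _
  unfold wc
  simp only [h1, mul_add, Finset.sum_add_distrib, add_sub_cancel_left, Finset.sum_mul,
    Finset.mul_sum]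
  rw [Finset.sum_comm]
  refine Finset.sum_congr rfl fun a' _ => Finset.sum_congr rfl fun b _ => ?_
  ring

/-- The old time. -/
theorem vt_th (t : d.Tau) : ((d.vt u t : ℝ) + Int.fract ((2 : ℝ) ^ u * d.th t)) / 2 ^ u =
    d.th t := by
  unfold vt
  rw [Int.floor_add_fract, mul_div_cancel_left₀ _ (by positivity)]

theorem win_val (ω : d.Om) : (d.win u).val ((d.win u).L ω) ((d.win u).T ω) =
    d.val (d.L ω) (d.T ω) := by
  show MvPolynomial.eval (d.x (d.L ω) (((d.vt u (d.T ω) : ℝ) +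
    Int.fract ((2 : ℝ) ^ u * d.th (d.T ω))) / 2 ^ u)) (d.F (d.T ω)) - _ = _
  rw [vt_th]
  rfl

theorem win_hgt (ω : d.Om) : (d.win u).hgt ((d.win u).L ω) ((d.win u).T ω) =
    d.hgt (d.L ω) (d.T ω) - d.wc u (d.L ω) (d.vt u (d.T ω)) := by
  have h1 := win_q d u (d.L ω, d.vt u (d.T ω)) (Int.fract ((2 : ℝ) ^ u * d.th (d.T ω)))
  have h2 : (d.win u).hgt ((d.win u).L ω) ((d.win u).T ω) =
      ∑ i, (d.win u).q (d.L ω, d.vt u (d.T ω)) i *
        (Int.fract ((2 : ℝ) ^ u * d.th (d.T ω))) ^ (i.val + 1) - d.s (d.T ω) -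
      MvPolynomial.eval (d.x (d.L ω) (((d.vt u (d.T ω) : ℝ) +
        Int.fract ((2 : ℝ) ^ u * d.th (d.T ω))) / 2 ^ u)) (d.F (d.T ω)) := rfl
  rw [h2, h1]
  simp only [vt_th]
  unfold hgt
  ring

variable {d}

theorem vt_le (hth : ∀ t, 0 ≤ d.th t ∧ d.th t < 1) (t : d.Tau) :
    |(d.vt u t : ℝ)| ≤ 2 ^ u := by
  have h0 := hth t
  have h1 : 0 ≤ (2 : ℝ) ^ u * d.th t := mul_nonneg (by positivity) h0.1
  have h2 : (2 : ℝ) ^ u * d.th t ≤ 2 ^ u := mul_le_of_le_one_right (by positivity) h0.2.le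
  have h3 : (0 : ℤ) ≤ d.vt u t := Int.floor_nonneg.2 h1
  have h4 : (0 : ℝ) ≤ d.vt u t := by exact_mod_cast h3
  rw [abs_of_nonneg h4]
  exact (Int.floor_le _).trans h2

theorem pow_mono {c e : ℝ} (h : c ≤ e) : (2 : ℝ) ^ c ≤ 2 ^ e :=
  Real.rpow_le_rpow_of_exponent_le one_le_two h

/-- **The axioms in the windows.** -/
theorem win_ok {G : Set d.Om} {c : ℝ} (h : d.OK G c) :
    (d.win u).OK G (c + (2 * n + 2 * m : ℕ)) := by
  have hc : c ≤ c + (2 * n + 2 * m : ℕ) := le_add_of_nonneg_right (Nat.cast_nonneg _)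
  have hu1 : (1 : ℝ) ≤ 2 ^ u := one_le_pow₀ one_le_two
  have th : ∀ t, ((d.vt u t : ℝ) + Int.fract ((2 : ℝ) ^ u * d.th t)) / 2 ^ u = d.th t :=
    vt_th d u
  refine {
    law := h.law
    hth := fun t => ⟨Int.fract_nonneg _, Int.fract_lt_one _⟩
    hF := h.hF
    hFc := fun t α => (h.hFc t α).trans (pow_mono hc)
    hN := ?_
    hV := ?_
    hZB := ?_
    hTB := ?_
    tri := ?_
    dia := ?_
    hy := h.hy
    hq := ?_
    hx := ?_
    hs := ?_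
    cc := ?_
    hh := ?_ }
  · intro ω ω' a b e
    have e1 : (d.L ω, d.vt u (d.T ω)) = (d.L ω', d.vt u (d.T ω')) := (Prod.ext_iff.1 e).1
    exact h.hN ω ω' a b (Prod.ext (Prod.ext_iff.1 e1).1 (Prod.ext_iff.1 e).2)
  · intro ω ω' a b e
    have e1 : d.V (d.L ω) = d.V (d.L ω') := (Prod.ext_iff.1 e).1
    have e2 : d.vt u (d.T ω) = d.vt u (d.T ω') := (Prod.ext_iff.1 e).2
    have e3 := h.hV ω ω' a b e1
    simp only [Prod.mk.injEq] at e3
    obtain ⟨f1, f2, f3⟩ := e3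
    refine Prod.ext f1 (Prod.ext ?_ ?_)
    · funext i
      show (∑ i' : Fin m, d.q (d.L ω) i' * _) = ∑ i' : Fin m, d.q (d.L ω') i' * _
      simp only [f2]
      show (∑ i' : Fin m, d.q (d.L ω') i' * (_ * ((d.vt u (d.T ω) : ℤ) : ℝ) ^ _ / _)) =
        ∑ i' : Fin m, d.q (d.L ω') i' * (_ * ((d.vt u (d.T ω') : ℤ) : ℝ) ^ _ / _)
      rw [e2]
    · funext j
      exact Prod.ext (congrFun f3 j) e2
  · intro j ω ω' a b e
    exact Prod.ext (h.hZB j ω ω' a b (Prod.ext_iff.1 e).1) (Prod.ext_iff.1 e).2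
  · intro ω ω' a b e
    have e1 : d.T ω = d.T ω' := e
    refine Prod.ext (h.hTB ω ω' a b e1) ?_
    show d.vt u (d.T ω) = d.vt u (d.T ω')
    rw [e1]
  · intro ω hω hp j i t y hji
    exact (win_sheet d u j (d.Z j (d.L ω), d.vt u (d.T ω)) t y i).trans
      (h.tri ω hω hp j i _ y hji)
  · intro ω hω hp j t y
    exact (win_sheet d u j (d.Z j (d.L ω), d.vt u (d.T ω)) t y j).trans
      ((h.dia ω hω hp j _ y).trans (congrArg (fun r => y + r)
        (win_sheet d u j (d.Z j (d.L ω), d.vt u (d.T ω)) t 0 j).symm))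
  · intro ω hω hp i
    have h1 : ∀ i' : Fin m, |d.q (d.L ω) i' *
        (((((i' : ℕ) + 1).choose ((i : ℕ) + 1) : ℕ) : ℝ) *
          (d.vt u (d.T ω) : ℝ) ^ ((i' : ℕ) - (i : ℕ)) / ((2 : ℝ) ^ u) ^ ((i' : ℕ) + 1))| ≤
        (2 : ℝ) ^ c * 2 ^ m := by
      intro i'
      rw [abs_mul]
      exact mul_le_mul (h.hq ω hω hp i') (aff_bd hu1 (vt_le u h.hth _) (by omega) _
        (by have := i'.2; omega)) (abs_nonneg _) (by positivity)
    show |∑ i' : Fin m, d.q (d.L ω) i' * _| ≤ _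
    refine (Finset.abs_sum_le_sum_abs _ _).trans ((Finset.sum_le_sum fun i' _ => h1 i').trans ?_)
    rw [Finset.sum_const, Finset.card_univ, Fintype.card_fin, nsmul_eq_mul]
    have h2 : (m : ℝ) ≤ 2 ^ m := by
      have := succ_le_two_pow m
      linarith
    calc (m : ℝ) * ((2 : ℝ) ^ c * 2 ^ m) ≤ 2 ^ m * ((2 : ℝ) ^ c * 2 ^ m) :=
          mul_le_mul_of_nonneg_right h2 (by positivity)
      _ = (2 : ℝ) ^ (c + (2 * m : ℕ)) := by
          rw [Real.rpow_add two_pos, Real.rpow_natCast, two_mul, pow_add]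
          ring
      _ ≤ _ := pow_mono (by push_cast; have : (0 : ℝ) ≤ n := Nat.cast_nonneg n; linarith)
  · intro ω hω hp i
    refine le_trans (le_of_eq ?_) ((h.hx ω hω hp i).trans (pow_mono hc))
    show |d.x (d.L ω) (((d.vt u (d.T ω) : ℝ) + Int.fract ((2 : ℝ) ^ u * d.th (d.T ω))) / 2 ^ u) i| = _
    rw [th]
  · intro ω hω hp j i a b
    have h1 : ∀ a' : Fin (n + 1), |d.sg j (d.Z j (d.L ω)) i a' b *
        ((((a' : ℕ).choose (a : ℕ) : ℕ) : ℝ) * (d.vt u (d.T ω) : ℝ) ^ ((a' : ℕ) - (a : ℕ)) /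
          ((2 : ℝ) ^ u) ^ (a' : ℕ))| ≤ (2 : ℝ) ^ c * 2 ^ n := by
      intro a'
      rw [abs_mul]
      exact mul_le_mul (h.hs ω hω hp j i a' b) (aff_bd hu1 (vt_le u h.hth _) (by omega) _
        (by have := a'.2; omega)) (abs_nonneg _) (by positivity)
    show |∑ a' : Fin (n + 1), d.sg j (d.Z j (d.L ω)) i a' b * _| ≤ _
    refine (Finset.abs_sum_le_sum_abs _ _).trans ((Finset.sum_le_sum fun i' _ => h1 i').trans ?_)
    rw [Finset.sum_const, Finset.card_univ, Fintype.card_fin, nsmul_eq_mul]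
    have h2 := succ_le_two_pow n
    calc ((n + 1 : ℕ) : ℝ) * ((2 : ℝ) ^ c * 2 ^ n) ≤ 2 ^ n * ((2 : ℝ) ^ c * 2 ^ n) := by
          refine mul_le_mul_of_nonneg_right ?_ (by positivity)
          push_cast
          exact h2
      _ = (2 : ℝ) ^ (c + (2 * n : ℕ)) := by
          rw [Real.rpow_add two_pos, Real.rpow_natCast, two_mul, pow_add]
          ring
      _ ≤ _ := pow_mono (by push_cast; have : (0 : ℝ) ≤ m := Nat.cast_nonneg m; linarith)
  · intro ω hω hp j i hij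
    have e1 : (d.win u).up ((d.win u).L ω) j ((d.win u).th ((d.win u).T ω)) i =
        d.up (d.L ω) j (d.th (d.T ω)) i := by
      have := win_up d u (d.L ω, d.vt u (d.T ω)) j (Int.fract ((2 : ℝ) ^ u * d.th (d.T ω))) i
      simp only [th] at this
      exact this
    have e2 : (d.win u).sheet j ((d.win u).Z j ((d.win u).L ω)) ((d.win u).th ((d.win u).T ω))
        ((d.win u).y ((d.win u).L ω) j / 2 ^ (d.win u).X) i =
        d.sheet j (d.Z j (d.L ω)) (d.th (d.T ω)) (d.y (d.L ω) j / 2 ^ d.X) i := by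
      have := win_sheet d u j (d.Z j (d.L ω), d.vt u (d.T ω))
        (Int.fract ((2 : ℝ) ^ u * d.th (d.T ω))) (d.y (d.L ω) j / 2 ^ d.X) i
      simp only [th] at this
      exact this
    rw [e1, e2]
    exact (h.cc ω hω hp j i hij).trans (pow_mono (by
      show c - (d.X : ℝ) ≤ c + (2 * n + 2 * m : ℕ) - (d.X : ℝ)
      linarith))
  · intro ω hω ω' hω' hp hp' hl
    have e1 : d.L ω = d.L ω' := (Prod.ext_iff.1 hl).1
    have e2 : d.vt u (d.T ω) = d.vt u (d.T ω') := (Prod.ext_iff.1 hl).2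
    have e3 : (d.win u).hgt ((d.win u).L ω) ((d.win u).T ω') -
        (d.win u).hgt ((d.win u).L ω) ((d.win u).T ω) =
        d.hgt (d.L ω) (d.T ω') - d.hgt (d.L ω) (d.T ω) := by
      have a1 := win_hgt d u ω
      have a2 := win_hgt d u ω'
      rw [← hl] at a2
      rw [a1, a2, ← e1, ← e2]
      ring
    rw [e3]
    exact (h.hh ω hω ω' hω' hp hp' e1).trans (pow_mono hc)

/-! ### Entropies -/

theorem MI_fun {Ω S T U V : Type} [Fintype Ω] {p : Ω → ℝ} (hp : ∀ ω, 0 ≤ p ω) (A : Ω → S)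
    (B : Ω → T) (b : Ω → U) (v : Ω → V) (hv : Det p A v) :
    MI p A B (fun ω => (b ω, v ω)) ≤ MI p A B b := by
  rw [Pool.M5.MI_eq hp, Pool.M5.MI_eq hp]
  have c1 := CH_chain hp A v b
  have c2 := CH_chain hp A v (fun ω => (B ω, b ω))
  have e1 : CH p (fun ω => (A ω, v ω)) b = CH p A b :=
    CH_congr hp (fun _ _ _ _ h => (Prod.ext_iff.1 (Prod.ext_iff.1 h).1).1)
      (fun ω ω' a c h => Prod.ext (Prod.ext_iff.1 h).1 (hv ω ω' a c (Prod.ext_iff.1 h).1))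
      (fun _ _ _ _ h => h) (fun _ _ _ _ h => h)
  have e2 : CH p (fun ω => (A ω, v ω)) (fun ω => (B ω, b ω)) = CH p A (fun ω => (B ω, b ω)) :=
    CH_congr hp (fun _ _ _ _ h => (Prod.ext_iff.1 (Prod.ext_iff.1 h).1).1)
      (fun ω ω' a c h => Prod.ext (Prod.ext_iff.1 h).1 (hv ω ω' a c (Prod.ext_iff.1 h).1))
      (fun _ _ _ _ h => h) (fun _ _ _ _ h => h)
  have e3 : CH p A (fun ω => (v ω, b ω)) = CH p A (fun ω => (b ω, v ω)) := by
    refine CH_congr hp ?_ ?_ ?_ ?_ <;>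
    · intro w w' _ _ hh
      simp only [Prod.mk.injEq] at hh ⊢
      tauto
  have e4 : CH p A (fun ω => (v ω, (B ω, b ω))) = CH p A (fun ω => (B ω, (b ω, v ω))) := by
    refine CH_congr hp ?_ ?_ ?_ ?_ <;>
    · intro w w' _ _ hh
      simp only [Prod.mk.injEq] at hh ⊢
      tauto
  have c3 : CH p v (fun ω => (B ω, b ω)) ≤ CH p v b :=
    CH_mono_cond hp fun _ _ _ _ h => (Prod.ext_iff.1 h).2
  linarith

theorem win_MI {G : Set d.Om} {c : ℝ} (h : d.OK G c) :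
    MI (d.win u).P (d.win u).T (d.win u).L (fun ω => (d.win u).B ((d.win u).L ω)) ≤
      MI d.P d.T d.L (fun ω => d.B (d.L ω)) := by
  have hp := h.law.nonneg
  have e1 : MI (d.win u).P (d.win u).T (d.win u).L (fun ω => (d.win u).B ((d.win u).L ω)) =
      MI d.P d.T d.L (fun ω => (d.B (d.L ω), d.vt u (d.T ω))) := by
    refine Pool.PLV.MI_congr hp d.T ?_ ?_ (fun _ _ _ _ h => h) (fun _ _ _ _ h => h)
    · intro ω ω' _ _ e
      exact (Prod.ext_iff.1 (Prod.ext_iff.1 e).1).1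
    · intro ω ω' _ _ e
      exact Prod.ext (Prod.ext_iff.1 e).1 (Prod.ext_iff.1 (Prod.ext_iff.1 e).2).2
  rw [e1]
  exact MI_fun hp d.T d.L _ _ fun ω ω' _ _ e => by rw [e]

theorem win_H2 {G : Set d.Om} {c ι : ℝ} (h : d.OK G c) (h2 : d.H2 ι) : (d.win u).H2 ι := by
  have hp := h.law.nonneg
  have e1 : MI (d.win u).P (d.win u).N (fun ω => (d.win u).V ((d.win u).L ω)) (d.win u).T =
      MI d.P d.N (fun ω => d.V (d.L ω)) d.T := by
    refine Pool.PLV.MI_congr hp d.N ?_ ?_ (fun _ _ _ _ h => h) (fun _ _ _ _ h => h)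
    · intro ω ω' _ _ e
      exact (Prod.ext_iff.1 (Prod.ext_iff.1 e).1).1
    · intro ω ω' _ _ e
      have e2 : d.T ω = d.T ω' := (Prod.ext_iff.1 e).2
      refine Prod.ext (Prod.ext_iff.1 e).1 ?_
      show d.vt u (d.T ω) = d.vt u (d.T ω')
      rw [e2]
  unfold H2
  rw [e1]
  exact h2

theorem win_H3 {G : Set d.Om} {c ι ι' : ℝ} (h : d.OK G c)
    (h1 : MI d.P d.T d.L (fun ω => d.B (d.L ω)) ≤ ι * d.X)
    (hι : ι + ι * Real.log 2 ≤ ι' * Real.log 2) (h3 : d.H3 ι) : (d.win u).H3 ι' := by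
  intro j
  have hp := h.law.nonneg
  have h4 := h3 j
  show (1 - ι') * (d.X : ℝ) * Real.log 2 ≤ CH d.P (fun ω => d.y (d.L ω) j)
    (fun ω => (d.Z j (d.L ω), d.vt u (d.T ω)))
  -- `I(y; v | Z) ≤ I(T; L | B)`
  obtain ⟨Y, hY⟩ : ∃ Y : d.Om → ℤ, Y = fun ω => d.y (d.L ω) j := ⟨_, rfl⟩
  obtain ⟨Zj, hZ⟩ : ∃ Zj : d.Om → d.Ze, Zj = fun ω => d.Z j (d.L ω) := ⟨_, rfl⟩
  obtain ⟨v, hv⟩ : ∃ v : d.Om → ℤ, v = fun ω => d.vt u (d.T ω) := ⟨_, rfl⟩
  rw [← hY, ← hZ] at h4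
  have c1 := CH_chain hp Y v Zj
  have c2 := CH_chain hp v Y Zj
  have e1 : CH d.P (fun ω => (Y ω, v ω)) Zj = CH d.P (fun ω => (v ω, Y ω)) Zj := by
    refine CH_congr hp ?_ ?_ (fun _ _ _ _ h => h) (fun _ _ _ _ h => h) <;>
    · intro w w' _ _ hh
      simp only [Prod.mk.injEq] at hh ⊢
      tauto
  have e2 : CH d.P Y (fun ω => (v ω, Zj ω)) = CH d.P Y (fun ω => (Zj ω, v ω)) := by
    refine CH_congr hp ?_ ?_ ?_ ?_ <;>
    · intro w w' _ _ hh
      simp only [Prod.mk.injEq] at hh ⊢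
      tauto
  have e3 : CH d.P v Zj ≤ CH d.P v (fun ω => d.B (d.L ω)) :=
    CH_mono_cond hp fun ω ω' a b e => h.hZB j ω ω' a b (by rw [hZ] at e; exact e)
  have e4 : CH d.P v (fun ω => (d.L ω, d.B (d.L ω))) ≤ CH d.P v (fun ω => (Y ω, Zj ω)) := by
    refine CH_mono_cond hp fun ω ω' _ _ e => ?_
    have e5 : d.L ω = d.L ω' := (Prod.ext_iff.1 e).1
    rw [hY, hZ]
    simp only [e5]
  have e6 : MI d.P v d.L (fun ω => d.B (d.L ω)) ≤ MI d.P d.T d.L (fun ω => d.B (d.L ω)) :=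
    Pool.PLV.MI_mono_left hp d.L fun ω ω' _ _ e => by
      have e7 : d.T ω = d.T ω' := (Prod.ext_iff.1 e).1
      rw [hv]
      simp only [e7]
  rw [Pool.M5.MI_eq hp] at e6
  have key : (1 - ι) * (d.X : ℝ) * Real.log 2 - ι * d.X ≤ CH d.P Y (fun ω => (Zj ω, v ω)) := by
    linarith
  rw [hY, hZ, hv] at key
  refine le_trans ?_ key
  have hX : (0 : ℝ) ≤ d.X := Nat.cast_nonneg _
  nlinarith [mul_le_mul_of_nonneg_right hι hX]

/-! ### Digits of the time -/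

theorem fl_split (u i : ℕ) (x : ℝ) :
    ⌊(2 : ℝ) ^ (u + i) * x⌋ = 2 ^ i * ⌊(2 : ℝ) ^ u * x⌋ + ⌊(2 : ℝ) ^ i * Int.fract ((2 : ℝ) ^ u * x)⌋ := by
  have h1 : (2 : ℝ) ^ (u + i) * x = (2 : ℝ) ^ i * Int.fract ((2 : ℝ) ^ u * x) +
      ((2 ^ i * ⌊(2 : ℝ) ^ u * x⌋ : ℤ) : ℝ) := by
    push_cast
    rw [pow_add]
    have := Int.floor_add_fract ((2 : ℝ) ^ u * x)
    calc (2 : ℝ) ^ u * 2 ^ i * x = 2 ^ i * (2 ^ u * x) := by ring
      _ = 2 ^ i * ((⌊(2 : ℝ) ^ u * x⌋ : ℝ) + Int.fract ((2 : ℝ) ^ u * x)) := by rw [this]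
      _ = _ := by ring
  rw [h1, Int.floor_add_intCast]
  ring

/-- The digits in the window. -/
theorem win_Ti {G : Set d.Om} {c : ℝ} (h : d.OK G c) (i : ℕ) :
    CH (d.win u).P ((d.win u).Ti i) (d.win u).L = CH d.P (d.Ti (u + i)) d.L - CH d.P (d.Ti u) d.L := by
  have hp := h.law.nonneg
  have c1 := CH_chain hp ((d.win u).Ti i) (d.Ti u) d.L
  have s : ∀ ω, d.Ti (u + i) ω = 2 ^ i * d.Ti u ω + (d.win u).Ti i ω := fun ω =>
    fl_split u i (d.th (d.T ω))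
  have hr : ∀ ω, 0 ≤ (d.win u).Ti i ω ∧ (d.win u).Ti i ω < 2 ^ i := by
    intro ω
    have f0 := Int.fract_nonneg ((2 : ℝ) ^ u * d.th (d.T ω))
    have f1 := Int.fract_lt_one ((2 : ℝ) ^ u * d.th (d.T ω))
    constructor
    · exact Int.floor_nonneg.2 (mul_nonneg (by positivity) f0)
    · show ⌊(2 : ℝ) ^ i * Int.fract ((2 : ℝ) ^ u * d.th (d.T ω))⌋ < 2 ^ i
      rw [Int.floor_lt]
      push_cast
      nlinarith [(by positivity : (0 : ℝ) < 2 ^ i)]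
  have e1 : CH d.P (fun ω => ((d.win u).Ti i ω, d.Ti u ω)) d.L = CH d.P (d.Ti (u + i)) d.L := by
    refine CH_congr hp ?_ ?_ (fun _ _ _ _ h => h) (fun _ _ _ _ h => h)
    · intro ω ω' _ _ e
      have e2 := (Prod.ext_iff.1 e).1
      simp only [Prod.mk.injEq] at e2
      show d.Ti (u + i) ω = d.Ti (u + i) ω'
      rw [s, s, e2.1, e2.2]
    · intro ω ω' _ _ e
      have e2 : d.Ti (u + i) ω = d.Ti (u + i) ω' := (Prod.ext_iff.1 e).1
      rw [s, s] at e2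
      have q0 : (0 : ℤ) < 2 ^ i := by positivity
      have d1 : (2 ^ i * d.Ti u ω + (d.win u).Ti i ω) / 2 ^ i = d.Ti u ω := by
        rw [add_comm, Int.add_mul_ediv_left _ _ q0.ne', Int.ediv_eq_zero_of_lt (hr ω).1 (hr ω).2,
          zero_add]
      have d2 : (2 ^ i * d.Ti u ω' + (d.win u).Ti i ω') / 2 ^ i = d.Ti u ω' := by
        rw [add_comm, Int.add_mul_ediv_left _ _ q0.ne', Int.ediv_eq_zero_of_lt (hr ω').1 (hr ω').2,
          zero_add]
      have e3 : d.Ti u ω = d.Ti u ω' := by rw [← d1, ← d2, e2]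
      rw [e3] at e2
      exact Prod.ext (by linarith) e3
  have e4 : CH (d.win u).P ((d.win u).Ti i) (d.win u).L =
      CH d.P ((d.win u).Ti i) (fun ω => (d.Ti u ω, d.L ω)) := by
    refine CH_congr hp (fun _ _ _ _ h => (Prod.ext_iff.1 h).1)
      (fun _ _ _ _ h => (Prod.ext_iff.1 h).1) ?_ ?_
    · intro ω ω' _ _ e
      have e5 : (d.L ω, d.vt u (d.T ω)) = (d.L ω', d.vt u (d.T ω')) := e
      exact Prod.ext (Prod.ext_iff.1 e5).2 (Prod.ext_iff.1 e5).1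
    · intro ω ω' _ _ e
      have e5 : (d.Ti u ω, d.L ω) = (d.Ti u ω', d.L ω') := e
      exact Prod.ext (Prod.ext_iff.1 e5).2 (Prod.ext_iff.1 e5).1
  rw [e4]
  linarith

/-- The entropy of `i` digits. -/
theorem win_Ti_le {G : Set d.Om} {c : ℝ} (h : d.OK G c) (i : ℕ) :
    CH (d.win u).P ((d.win u).Ti i) (d.win u).L ≤ i * Real.log 2 := by
  have hp := h.law
  have h1 : CH d.P ((d.win u).Ti i) (d.win u).L ≤ _ := CH_le_card hp.nonneg hp.sum_one
    ((d.win u).Ti i) (d.win u).L (fun _ => (Finset.Ico (0 : ℤ) (2 ^ i))) (fun ω _ => by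
      have f0 := Int.fract_nonneg ((2 : ℝ) ^ u * d.th (d.T ω))
      have f1 := Int.fract_lt_one ((2 : ℝ) ^ u * d.th (d.T ω))
      rw [mem_Ico]
      constructor
      · exact Int.floor_nonneg.2 (mul_nonneg (by positivity) f0)
      · show ⌊(2 : ℝ) ^ i * Int.fract ((2 : ℝ) ^ u * d.th (d.T ω))⌋ < 2 ^ i
        rw [Int.floor_lt]
        push_cast
        nlinarith [(by positivity : (0 : ℝ) < 2 ^ i)])
  rw [Ex_const hp.sum_one] at h1
  refine h1.trans (le_of_eq ?_)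
  rw [Int.card_Ico, sub_zero]
  have : ((2 : ℤ) ^ i).toNat = 2 ^ i := by
    have e : (2 : ℤ) ^ i = ((2 ^ i : ℕ) : ℤ) := by push_cast; ring
    rw [e, Int.toNat_natCast]
  rw [this]
  push_cast
  rw [Real.log_pow]

/-- **A window whose first digits are full.** -/
theorem ex_win {G : Set d.Om} {c ι ε₀ : ℝ} {N j₀ : ℕ} (h : d.OK G c)
    (hd : (1 - ι) * d.X * Real.log 2 ≤ CH d.P (d.Ti d.X) d.L) (hN : 0 < N) (hNX : N * j₀ ≤ d.X)
    (hε : ι * d.X * Real.log 2 ≤ N * ε₀) : ∃ i < N,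
    j₀ * Real.log 2 - ε₀ ≤ CH (d.win (i * j₀)).P ((d.win (i * j₀)).Ti j₀) (d.win (i * j₀)).L := by
  by_contra hcon
  push Not at hcon
  have h1 : ∀ i ∈ range N, CH d.P (d.Ti ((i + 1) * j₀)) d.L - CH d.P (d.Ti (i * j₀)) d.L <
      j₀ * Real.log 2 - ε₀ := by
    intro i hi
    have h2 := hcon i (mem_range.1 hi)
    rw [win_Ti (i * j₀) h j₀] at h2
    rw [Nat.add_mul, Nat.one_mul]
    exact h2
  have h2 := Finset.sum_lt_sum_of_nonempty (Finset.nonempty_range_iff.2 hN.ne') h1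
  rw [Finset.sum_range_sub (fun i => CH d.P (d.Ti (i * j₀)) d.L) N, sum_const, card_range,
    nsmul_eq_mul, Nat.zero_mul] at h2
  have h3 : CH d.P (d.Ti 0) d.L = 0 := by
    refine CH_eq_zero h.law.nonneg fun ω ω' _ _ _ => ?_
    have h4 : ∀ ω, d.Ti 0 ω = 0 := by
      intro ω
      unfold Ti
      rw [pow_zero, one_mul, Int.floor_eq_zero_iff]
      exact ⟨(h.hth _).1, (h.hth _).2⟩
    rw [h4, h4]
  have h4 := win_Ti (N * j₀) h (d.X - N * j₀)
  have h5 := win_Ti_le (N * j₀) h (d.X - N * j₀)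
  rw [h4, Nat.add_sub_cancel' hNX, Nat.cast_sub hNX] at h5
  push_cast at h5
  rw [h3] at h2
  nlinarith

theorem win_dig {G : Set d.Om} {c ι : ℝ} (h : d.OK G c) (hu : u ≤ d.X)
    (hd : (1 - ι) * d.X * Real.log 2 ≤ CH d.P (d.Ti d.X) d.L) :
    (1 - ι) * d.X * Real.log 2 - u * Real.log 2 ≤
      CH (d.win u).P ((d.win u).Ti d.X) (d.win u).L := by
  have hp := h.law.nonneg
  have h1 := win_Ti u h (d.X - u)
  rw [Nat.add_sub_cancel' hu] at h1
  have h2 : CH d.P (d.Ti u) d.L ≤ u * Real.log 2 := by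
    have h3 := win_Ti_le 0 h u
    rw [win_Ti 0 h u, zero_add] at h3
    have h4 : CH d.P (d.Ti 0) d.L = 0 := by
      refine CH_eq_zero h.law.nonneg fun ω ω' _ _ _ => ?_
      have h4 : ∀ ω, d.Ti 0 ω = 0 := by
        intro ω
        unfold Ti
        rw [pow_zero, one_mul, Int.floor_eq_zero_iff]
        exact ⟨(h.hth _).1, (h.hth _).2⟩
      rw [h4, h4]
    rw [h4, sub_zero] at h3
    exact h3
  have h3 : CH (d.win u).P ((d.win u).Ti (d.X - u)) (d.win u).L ≤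
      CH (d.win u).P ((d.win u).Ti d.X) (d.win u).L := by
    refine CH_mono_left hp fun ω ω' _ _ e => ?_
    have e1 : (d.win u).Ti d.X ω = (d.win u).Ti d.X ω' := (Prod.ext_iff.1 e).1
    have s : ∀ ω, (d.win u).Ti (d.X - u) ω = (d.win u).Ti d.X ω / 2 ^ u := by
      intro ω
      show ⌊(2 : ℝ) ^ (d.X - u) * Int.fract ((2 : ℝ) ^ u * d.th (d.T ω))⌋ =
        ⌊(2 : ℝ) ^ d.X * Int.fract ((2 : ℝ) ^ u * d.th (d.T ω))⌋ / 2 ^ u
      have e2 : (2 : ℝ) ^ (d.X - u) * Int.fract ((2 : ℝ) ^ u * d.th (d.T ω)) =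
          (2 : ℝ) ^ d.X * Int.fract ((2 : ℝ) ^ u * d.th (d.T ω)) / ((2 ^ u : ℕ) : ℝ) := by
        push_cast
        rw [show (2 : ℝ) ^ d.X = 2 ^ (d.X - u) * 2 ^ u by rw [← pow_add]; congr 1; omega]
        field_simp
      rw [e2, Int.floor_div_natCast]
      push_cast
      rfl
    exact (s ω).trans ((congrArg (fun x => x / 2 ^ u) e1).trans (s ω').symm)
  linarith

end SDat

end Pool.LSH
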